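import Pool.Agent.helper52.EU.SpecK

/-!
Row LRS of project eu (MP_ad8ced_nt): the long rough smooth variable.
-/

set_option autoImplicit false

open Finset

namespace Pool.Agent.EU

open Pool.Agent.FI Pool.Agent.HK Pool.Agent.BP Pool.Agent.YB
open Pool.Agent.CH (nit rgh)

/-! ### basic facts -/

private theorem LRS_memFF (hSIZ : SIZ_stmt) (u : ℕ) (z : ℤ × ℤ) : z ∈ FF u ↔ Fd z ∧ nn z ≤ u := by
  classical
  constructor
  · intro h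
    unfold FF at h
    rw [mem_filter] at h
    exact h.2
  · rintro ⟨h1, h2⟩
    obtain ⟨_, _, _, h3, _⟩ := hSIZ z h1
    unfold FF at h3 ⊢
    rw [mem_filter, mem_product, mem_Icc, mem_Icc] at h3 ⊢
    obtain ⟨⟨⟨a, b⟩, c, d⟩, _⟩ := h3
    have h4 : (nn z : ℤ) ≤ u := by exact_mod_cast h2
    refine ⟨⟨⟨?_, ?_⟩, ?_, ?_⟩, h1, h2⟩ <;> linarith

private theorem LRS_mue (z : ℤ × ℤ) : ‖(mue z : ℂ)‖ ≤ 1 := by
  rw [Complex.norm_real, Real.norm_eq_abs]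
  unfold mue
  split_ifs
  · rw [abs_mul]
    have h1 : |((ArithmeticFunction.moebius (nn z / Int.gcd z.1 z.2 ^ 2) : ℤ) : ℝ)| ≤ 1 := by
      rw [← Int.cast_abs]
      exact_mod_cast ArithmeticFunction.abs_moebius_le_one
    have h2 : |ch8 (Int.gcd z.1 z.2)| ≤ 1 := by
      unfold ch8
      split_ifs <;> norm_num
    exact mul_le_one₀ h1 (abs_nonneg _) h2
  · norm_num

private theorem LRS_nit1 (t x : ℝ) : ‖nit t x‖ = 1 := by
  unfold nit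
  exact Complex.norm_exp_ofReal_mul_I _

private theorem LRS_nitmul (t a b : ℝ) (ha : 0 < a) (hb : 0 < b) : nit t (a * b) = nit t a * nit t b := by
  unfold nit
  rw [← Complex.exp_add, Real.log_mul ha.ne' hb.ne']
  congr 1
  push_cast
  ring

private theorem LRS_s1 (z : ℤ × ℤ) (hz : Fd z) : s1 z = 1 := by
  have h0 : (0 : ℝ) ≤ √8 := Real.sqrt_nonneg _
  have h8 : √(8 : ℝ) ≤ 3 := by
    rw [show (3 : ℝ) = √(3 ^ 2) by rw [Real.sqrt_sq (by norm_num)]]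
    exact Real.sqrt_le_sqrt (by norm_num)
  have h7 : (2 : ℝ) ≤ √8 := by
    rw [show (2 : ℝ) = √(2 ^ 2) by rw [Real.sqrt_sq (by norm_num)]]
    exact Real.sqrt_le_sqrt (by norm_num)
  unfold s1
  rw [if_pos]
  rcases hz.2 with h | h
  · have h1 : 4 * |(z.2 : ℝ)| < z.1 := by exact_mod_cast h
    have h2 : -(|(z.2 : ℝ)| * √8) ≤ z.2 * √8 := by
      have := mul_le_mul_of_nonneg_right (neg_abs_le (z.2 : ℝ)) h0
      linarith
    have h3 : |(z.2 : ℝ)| * √8 ≤ |(z.2 : ℝ)| * 3 := mul_le_mul_of_nonneg_left h8 (abs_nonneg _)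
    have := abs_nonneg (z.2 : ℝ)
    linarith
  · have h1 : |(z.1 : ℝ)| < 2 * z.2 := by exact_mod_cast h
    have h2 : 0 < (z.2 : ℝ) := by linarith [abs_nonneg (z.1 : ℝ)]
    have h3 : (z.2 : ℝ) * 2 ≤ z.2 * √8 := mul_le_mul_of_nonneg_left h7 h2.le
    linarith [neg_abs_le (z.1 : ℝ)]

private theorem LRS_HX (ξ : ℤ × ℤ → ℂ) (i₁ i : ℕ) (κ : ℝ) (z : ℤ × ℤ) (hz : Fd z) :
    HX ξ i₁ i κ z = ξ z * ((N8 z).sign : ℂ) ^ i * Complex.exp (((κ * yy z : ℝ) : ℂ) * Complex.I) := by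
  unfold HX
  rw [LRS_s1 z hz, one_pow, mul_one]
  congr 2
  push_cast
  ring

private theorem LRS_xi (q : ℕ) (ξ : ℤ × ℤ → ℂ) (h : IsX q ξ) (z : ℤ × ℤ) : ‖ξ z‖ ≤ 1 := by
  by_cases hz : Nat.Coprime (nn z) q
  · exact (h.2.2.2.2.2 z hz).le
  · rw [h.2.2.2.2.1 z hz]; simp

private theorem LRS_sign (z : ℤ × ℤ) (i : ℕ) : ‖((N8 z).sign : ℂ) ^ i‖ ≤ 1 := by
  rw [norm_pow]
  apply pow_le_one₀ (norm_nonneg _)
  rcases lt_trichotomy (N8 z) 0 with h | h | h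
  · rw [Int.sign_eq_neg_one_of_neg h]; simp
  · rw [h]; simp
  · rw [Int.sign_eq_one_of_pos h]; simp

private theorem LRS_HXn (q : ℕ) (ξ : ℤ × ℤ → ℂ) (h : IsX q ξ) (i₁ i : ℕ) (κ : ℝ) (z : ℤ × ℤ) (hz : Fd z) :
    ‖HX ξ i₁ i κ z‖ ≤ 1 := by
  rw [LRS_HX ξ i₁ i κ z hz, norm_mul, Complex.norm_exp_ofReal_mul_I, mul_one, norm_mul]
  exact mul_le_one₀ (LRS_xi q ξ h z) (norm_nonneg _) (LRS_sign z i)

private theorem LRS_sq2 (a b : ℂ) : ‖a + b‖ ^ 2 ≤ 2 * ‖a‖ ^ 2 + 2 * ‖b‖ ^ 2 := by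
  have h := norm_add_le a b
  have h2 : ‖a + b‖ ^ 2 ≤ (‖a‖ + ‖b‖) ^ 2 := pow_le_pow_left₀ (norm_nonneg _) h 2
  nlinarith [sq_nonneg (‖a‖ - ‖b‖)]

private theorem LRS_ev (c : ℝ) (A : ℕ) (δ : ℝ) (hδ : 0 < δ) :
    ∃ x₀ : ℕ, ∀ x : ℕ, x₀ ≤ x → c * Real.log x ^ A ≤ (x : ℝ) ^ δ := by
  have h1 := isLittleO_log_rpow_rpow_atTop (s := δ) (A : ℝ) hδ
  have h2 := h1.bound (show 0 < 1 / (|c| + 1) by positivity)
  have h3 := tendsto_natCast_atTop_atTop (R := ℝ) |>.eventually h2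
  obtain ⟨x₀, hx₀⟩ := Filter.eventually_atTop.mp h3
  refine ⟨max x₀ 1, fun x hx => ?_⟩
  have h4 := hx₀ x ((le_max_left _ _).trans hx)
  have hx1 : (1 : ℝ) ≤ x := by exact_mod_cast (le_max_right _ _).trans hx
  have hL : 0 ≤ Real.log x := Real.log_nonneg hx1
  have h5 : 0 ≤ Real.log x ^ A := pow_nonneg hL A
  have h6 : 0 ≤ (x : ℝ) ^ δ := Real.rpow_nonneg (by linarith) δ
  rw [Real.rpow_natCast, Real.norm_of_nonneg h5, Real.norm_of_nonneg h6] at h4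
  have h7 : (|c| + 1) * Real.log x ^ A ≤ (x : ℝ) ^ δ := by
    calc (|c| + 1) * Real.log x ^ A ≤ (|c| + 1) * (1 / (|c| + 1) * (x : ℝ) ^ δ) :=
          mul_le_mul_of_nonneg_left h4 (by positivity)
      _ = (x : ℝ) ^ δ := by field_simp
  have h8 : c * Real.log x ^ A ≤ |c| * Real.log x ^ A := mul_le_mul_of_nonneg_right (le_abs_self c) h5
  linarith

private theorem LRS_ev2 (c : ℝ) : ∃ x₀ : ℕ, ∀ x : ℕ, x₀ ≤ x → c ≤ Real.log x := by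
  have h1 := Real.tendsto_log_atTop.comp (tendsto_natCast_atTop_atTop (R := ℝ))
  obtain ⟨x₀, hx₀⟩ := Filter.eventually_atTop.mp (h1.eventually_ge_atTop c)
  exact ⟨x₀, fun x hx => hx₀ x hx⟩

/-! ### the smooth variable -/

open scoped Classical in
private theorem LRS_smw (hSMW : SMW_stmt) (hUHX : UHX_stmt) : ∀ η : ℝ, 0 < η → η ≤ 1 → ∃ δ : ℝ, 0 < δ ∧ ∃ x₀ : ℕ, ∀ x : ℕ, x₀ ≤ x →
    ∀ (q : ℕ) (ξ : ℤ × ℤ → ℂ) (i₁ i : ℕ) (α t : ℝ) (M M' M₁ : ℕ), IsX q ξ → (q : ℝ) ≤ (x : ℝ) ^ δ → 0 ≤ α → α < 2 * Real.pi →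
    (∀ m : ℤ, XInv ξ i₁ (fr α m)) → 1 ≤ M₁ → (M₁ : ℝ) ^ 2 * (x : ℝ) ^ η ≤ M → M ≤ M' → M' ≤ 2 * M →
    |t| ≤ (M₁ : ℝ) ^ 2 * (x : ℝ) ^ (2 * η / 5) → ∀ T : Finset ℤ, T ⊆ Icc (-(M₁ : ℤ)) M₁ → (∀ m ∈ T, NPr q ξ ∨ m ≠ 0) →
    ∑ m ∈ T, ‖∑ z ∈ FF M' with M < nn z, HX ξ i₁ i (fr α m) z * nit t (nn z)‖ ^ 2 ≤ (M : ℝ) ^ 2 * (x : ℝ) ^ (-δ) := by
  intro η h0 h1
  obtain ⟨δ, hδ, x₀, hx₀⟩ := hSMW η h0 h1
  refine ⟨δ, hδ, x₀, fun x hx q ξ i₁ i α t M M' M₁ hX hq ha0 ha1 hXI hM₁ hM hMM hMM2 ht T hT hTe => ?_⟩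
  have hq1 : 1 ≤ q := hX.2.1
  obtain ⟨s1, s2⟩ := hx₀ x hx M₁ M M' q i t α ξ hM₁ hM hMM hMM2 hq1 hq ht ha0 ha1.le (LRS_xi q ξ hX) hX.2.2.2.1
  have e : ∀ m : ℤ, ∑ z ∈ FF M' with M < nn z, HX ξ i₁ i (fr α m) z * nit t (nn z) =
      ∑ z ∈ FF M' with M < nn z, ξ z * ((N8 z).sign : ℂ) ^ i * Complex.exp (((fr α m * yy z : ℝ) : ℂ) * Complex.I) * nit t (nn z) := by
    intro m
    apply sum_congr rfl
    intro z hz
    have hz' : Fd z := by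
      rw [mem_filter] at hz
      have := hz.1
      unfold FF at this
      rw [mem_filter] at this
      exact this.2.1
    rw [LRS_HX ξ i₁ i _ z hz']
  simp only [e]
  by_cases hN : NPr q ξ
  · refine le_trans ?_ (s1 (hUHX.2 q ξ hX hN))
    exact sum_le_sum_of_subset_of_nonneg hT fun _ _ _ => by positivity
  · -- the principal character
    have hα : α = 0 := by
      have hpr : ∀ z : ℤ × ℤ, Nat.Coprime (nn z) q → ξ z = 1 := by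
        intro z hz
        by_contra hcon
        exact hN ⟨z, hz, hcon⟩
      have h31 : ξ (3, 1) = 1 := by
        apply hpr
        have : nn (3, 1) = 1 := by unfold nn N8; norm_num
        rw [this]
        exact Nat.coprime_one_left q
      have hx := (hXI 0).1
      rw [h31, one_mul, Complex.exp_eq_one_iff] at hx
      obtain ⟨n, hn⟩ := hx
      have hl : Real.log (3 + √8) ≠ 0 := by
        apply Real.log_ne_zero_of_pos_of_ne_one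
        · positivity
        · have := Real.sqrt_nonneg (8 : ℝ); linarith
      have hn2 : fr α 0 * (2 * Real.log (3 + √8)) = n * (2 * Real.pi) := by
        have h5 : ((fr α 0 * (2 * Real.log (3 + √8)) : ℝ) : ℂ) * Complex.I = ((n * (2 * Real.pi) : ℝ) : ℂ) * Complex.I := by
          push_cast
          rw [hn]; ring
        have h6 := mul_right_cancel₀ Complex.I_ne_zero h5
        exact_mod_cast h6
      have hn3 : fr α 0 * (2 * Real.log (3 + √8)) = α := by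
        unfold fr lep
        push_cast
        field_simp
        ring
      rw [hn3] at hn2
      have hpi := Real.pi_pos
      have hn4 : n = 0 := by
        have g1 : (n : ℝ) < 1 := by
          by_contra hcon
          push Not at hcon
          have : 1 * (2 * Real.pi) ≤ n * (2 * Real.pi) := mul_le_mul_of_nonneg_right hcon (by positivity)
          linarith
        have g2 : (-1 : ℝ) < n := by
          by_contra hcon
          push Not at hcon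
          have : n * (2 * Real.pi) ≤ -1 * (2 * Real.pi) := mul_le_mul_of_nonneg_right hcon (by positivity)
          linarith
        have g3 : n < 1 := by exact_mod_cast g1
        have g4 : -1 < n := by exact_mod_cast g2
        omega
      rw [hn4] at hn2
      simpa using hn2
    refine le_trans ?_ (s2 hα)
    apply sum_le_sum_of_subset_of_nonneg
    · intro m hm
      rw [mem_filter]
      refine ⟨hT hm, ?_⟩
      rcases hTe m hm with h | h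
      · exact absurd h hN
      · exact h
    · intro _ _ _
      positivity

open scoped Classical in
private theorem LRS_smw2 (hSMW : SMW_stmt) (hUHX : UHX_stmt) (hSIZ : SIZ_stmt) : ∀ η : ℝ, 0 < η → η ≤ 1 → ∃ δ : ℝ, 0 < δ ∧ ∃ x₀ : ℕ, ∀ x : ℕ, x₀ ≤ x →
    ∀ (q : ℕ) (ξ : ℤ × ℤ → ℂ) (i₁ i : ℕ) (α t : ℝ) (M M' M₁ : ℕ), IsX q ξ → (q : ℝ) ≤ (x : ℝ) ^ δ → 0 ≤ α → α < 2 * Real.pi →
    (∀ m : ℤ, XInv ξ i₁ (fr α m)) → 1 ≤ M₁ → (M₁ : ℝ) ^ 2 * (x : ℝ) ^ η ≤ M → M ≤ M' → 1 ≤ M → M' ≤ 2 * M + 1 →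
    |t| ≤ (M₁ : ℝ) ^ 2 * (x : ℝ) ^ (2 * η / 5) → ∀ T : Finset ℤ, T ⊆ Icc (-(M₁ : ℤ)) M₁ → (∀ m ∈ T, NPr q ξ ∨ m ≠ 0) →
    ∑ m ∈ T, ‖∑ z ∈ FF M' with M < nn z, HX ξ i₁ i (fr α m) z * nit t (nn z)‖ ^ 2 ≤ 10 * ((M : ℝ) ^ 2 * (x : ℝ) ^ (-δ)) := by
  intro η h0 h1
  obtain ⟨δ, hδ, x₀, hx₀⟩ := LRS_smw hSMW hUHX η h0 h1
  refine ⟨δ, hδ, x₀, fun x hx q ξ i₁ i α t M M' M₁ hX hq ha0 ha1 hXI hM₁ hM hMM hM1 hMM2 ht T hT hTe => ?_⟩
  have hp : 0 ≤ (M : ℝ) ^ 2 * (x : ℝ) ^ (-δ) := by positivity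
  rcases Nat.lt_or_ge M' (2 * M + 1) with hlt | hge
  · have := hx₀ x hx q ξ i₁ i α t M M' M₁ hX hq ha0 ha1 hXI hM₁ hM hMM (by omega) ht T hT hTe
    linarith
  · have hMe : M' = 2 * M + 1 := by omega
    have s1 := hx₀ x hx q ξ i₁ i α t M (2 * M) M₁ hX hq ha0 ha1 hXI hM₁ hM (by omega) le_rfl ht T hT hTe
    have s2 := hx₀ x hx q ξ i₁ i α t (2 * M) (2 * M + 1) M₁ hX hq ha0 ha1 hXI hM₁
      (hM.trans (by push_cast; linarith [(Nat.cast_nonneg M : (0 : ℝ) ≤ M)])) (by omega) (by omega) ht T hT hTe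
    have e : ∀ m : ℤ, ∑ z ∈ FF M' with M < nn z, HX ξ i₁ i (fr α m) z * nit t (nn z) =
        ∑ z ∈ FF (2 * M) with M < nn z, HX ξ i₁ i (fr α m) z * nit t (nn z) +
        ∑ z ∈ FF (2 * M + 1) with 2 * M < nn z, HX ξ i₁ i (fr α m) z * nit t (nn z) := by
      intro m
      rw [← sum_union]
      · apply sum_congr _ fun _ _ => rfl
        ext z
        simp only [mem_filter, mem_union, LRS_memFF hSIZ]
        constructor
        · rintro ⟨⟨h1, h2⟩, h3⟩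
          rcases Nat.lt_or_ge (2 * M) (nn z) with h4 | h4
          · exact Or.inr ⟨⟨h1, by omega⟩, h4⟩
          · exact Or.inl ⟨⟨h1, h4⟩, h3⟩
        · rintro (⟨⟨h1, h2⟩, h3⟩ | ⟨⟨h1, h2⟩, h3⟩)
          · exact ⟨⟨h1, by omega⟩, h3⟩
          · exact ⟨⟨h1, by omega⟩, by omega⟩
      · rw [disjoint_left]
        intro z hz hz'
        simp only [mem_filter, LRS_memFF hSIZ] at hz hz'
        omega
    simp only [e]
    calc _ ≤ ∑ m ∈ T, (2 * ‖∑ z ∈ FF (2 * M) with M < nn z, HX ξ i₁ i (fr α m) z * nit t (nn z)‖ ^ 2 +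
          2 * ‖∑ z ∈ FF (2 * M + 1) with 2 * M < nn z, HX ξ i₁ i (fr α m) z * nit t (nn z)‖ ^ 2) :=
          sum_le_sum fun m _ => LRS_sq2 _ _
      _ = 2 * ∑ m ∈ T, ‖∑ z ∈ FF (2 * M) with M < nn z, HX ξ i₁ i (fr α m) z * nit t (nn z)‖ ^ 2 +
          2 * ∑ m ∈ T, ‖∑ z ∈ FF (2 * M + 1) with 2 * M < nn z, HX ξ i₁ i (fr α m) z * nit t (nn z)‖ ^ 2 := by
          rw [sum_add_distrib, mul_sum, mul_sum]
      _ ≤ 2 * ((M : ℝ) ^ 2 * (x : ℝ) ^ (-δ)) + 2 * (((2 * M : ℕ) : ℝ) ^ 2 * (x : ℝ) ^ (-δ)) := by linarith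
      _ = 10 * ((M : ℝ) ^ 2 * (x : ℝ) ^ (-δ)) := by push_cast; ring

/-! ### the inner sum -/

open scoped Classical in
private theorem LRS_inner (hSIZ : SIZ_stmt) (Ψ : ℤ × ℤ → ℂ) (t : ℝ) (M M' a : ℕ) (ha : 1 ≤ a) :
    ∑ v ∈ FF M', Ψ v * (if M < a * nn v ∧ a * nn v ≤ M' then nit t ((a * nn v : ℕ) : ℝ) else 0) =
      nit t a * ∑ v ∈ FF (M' / a) with M / a < nn v, Ψ v * nit t (nn v) := by
  have e1 : ∑ v ∈ FF M', Ψ v * (if M < a * nn v ∧ a * nn v ≤ M' then nit t ((a * nn v : ℕ) : ℝ) else 0) =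
      ∑ v ∈ (FF M').filter (fun v => M < a * nn v ∧ a * nn v ≤ M'), Ψ v * nit t ((a * nn v : ℕ) : ℝ) := by
    rw [sum_filter]
    apply sum_congr rfl
    intro v _
    split_ifs
    · rfl
    · rw [mul_zero]
  have e2 : (FF M').filter (fun v => M < a * nn v ∧ a * nn v ≤ M') = (FF (M' / a)).filter (fun v => M / a < nn v) := by
    ext v
    simp only [mem_filter, LRS_memFF hSIZ]
    rw [Nat.div_lt_iff_lt_mul ha, Nat.le_div_iff_mul_le ha, mul_comm (nn v) a]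
    constructor
    · rintro ⟨⟨h1, h2⟩, h3, h4⟩
      exact ⟨⟨h1, h4⟩, h3⟩
    · rintro ⟨⟨h1, h2⟩, h3⟩
      refine ⟨⟨h1, ?_⟩, h3, h2⟩
      exact (Nat.le_mul_of_pos_left _ ha).trans h2
  rw [e1, e2, mul_sum]
  apply sum_congr rfl
  intro v hv
  rw [mem_filter, LRS_memFF hSIZ] at hv
  obtain ⟨_, _, hp, _⟩ := hSIZ v hv.1.1
  have ha' : (0 : ℝ) < a := by exact_mod_cast ha
  have hv' : (0 : ℝ) < nn v := by exact_mod_cast hp
  rw [Nat.cast_mul, LRS_nitmul t a (nn v) ha' hv']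
  ring

/-! ### large smooth divisors -/

open scoped Classical in
private theorem LRS_p1 (hPR2 : PR2_stmt) (hMVQ : MVQ_stmt) (hSMT : SMT_stmt) (hUHX : UHX_stmt) (hSIZ : SIZ_stmt) :
    ∃ C : ℝ, 0 < C ∧ ∀ (A C₀ : ℕ) (ε : ℝ), 1 ≤ C₀ → 0 < ε → ∃ x₀ : ℕ, ∀ x : ℕ, x₀ ≤ x →
    ∀ (q : ℕ) (ξ : ℤ × ℤ → ℂ) (i₁ i : ℕ) (α t Z : ℝ) (M M' M₁ : ℕ), IsX q ξ → 0 ≤ α → α < 2 * Real.pi →
    (∀ m : ℤ, XInv ξ i₁ (fr α m)) → Z ≤ Real.log x ^ C₀ → 1 ≤ M₁ → M₁ ^ 2 ≤ M' → M' ≤ x ^ 4 →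
    ∑ m ∈ Icc (-(M₁ : ℤ)) M₁, ‖∑ w ∈ FF M' with (smt Z (nn w) ∧ (x : ℝ) ^ ε < nn w), ∑ v ∈ FF M',
      (mue w : ℂ) * (HX ξ i₁ i (fr α m) w * HX ξ i₁ i (fr α m) v) *
        (if M < nn w * nn v ∧ nn w * nn v ≤ M' then nit t ((nn w * nn v : ℕ) : ℝ) else 0)‖ ^ 2
      ≤ C * ((M' : ℝ) ^ 2 / Real.log x ^ A) := by
  obtain ⟨C, hC, hMV⟩ := hMVQ
  refine ⟨C, hC, fun A C₀ ε hC₀ hε => ?_⟩
  obtain ⟨x₁, hx₁⟩ := hSMT 8 C₀ A ε hC₀ hε
  refine ⟨max x₁ 1, fun x hx q ξ i₁ i α t Z M M' M₁ hX ha0 ha1 hXI hZ hM₁ hMM hM4 => ?_⟩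
  have hx1 : (1 : ℝ) ≤ x := by exact_mod_cast (le_max_right _ _).trans hx
  have hL : 0 ≤ Real.log x := Real.log_nonneg hx1
  have hM'1 : 1 ≤ M' := le_trans (Nat.one_le_pow _ _ hM₁) hMM
  set Z' : ℕ := ⌊Z⌋₊ with hZ'
  have hZ'L : (Z' : ℝ) ≤ Real.log x ^ C₀ := by
    rcases le_or_gt 0 Z with h | h
    · exact (Nat.floor_le h).trans hZ
    · rw [hZ', Nat.floor_of_nonpos h.le]
      simpa using pow_nonneg hL C₀
  set Q : ℕ → Prop := fun n => ∃ a : ℕ, a ∣ n ∧ (x : ℝ) ^ ε < (a : ℝ) ∧ ∀ p : ℕ, p.Prime → p ∣ a → p ≤ Z' with hQ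
  set G : ℕ → ℝ := fun n => if n ≤ M' ∧ Q n then 1 else 0 with hG
  have hG0 : ∀ n, 0 ≤ G n := by intro n; simp only [hG]; split_ifs <;> norm_num
  have hG1 : ∀ n, G n ≤ 1 := by intro n; simp only [hG]; split_ifs <;> norm_num
  set F : ℤ × ℤ → ℤ × ℤ → ℂ := fun w v => if smt Z (nn w) ∧ (x : ℝ) ^ ε < nn w then
    (mue w : ℂ) * (if M < nn w * nn v ∧ nn w * nn v ≤ M' then nit t ((nn w * nn v : ℕ) : ℝ) else 0) else 0 with hF
  obtain ⟨b, hb1, hb2, hb3⟩ := hPR2 M' M' F G hM'1 hM'1 hG0 (by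
    intro w hw v hv
    simp only [hF]
    by_cases h1 : smt Z (nn w) ∧ (x : ℝ) ^ ε < nn w
    · rw [if_pos h1]
      by_cases h2 : M < nn w * nn v ∧ nn w * nn v ≤ M'
      · rw [if_pos h2]
        have h3 : G (nn w * nn v) = 1 := by
          simp only [hG]
          rw [if_pos]
          refine ⟨h2.2, nn w, dvd_mul_right _ _, h1.2, ?_⟩
          intro p hp hpd
          exact Nat.le_floor (h1.1 p hp hpd)
        rw [h3, norm_mul, LRS_nit1, mul_one]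
        exact LRS_mue w
      · rw [if_neg h2, mul_zero, norm_zero]
        exact hG0 _
    · rw [if_neg h1, norm_zero]
      exact hG0 _)
  set b' : ℤ × ℤ → ℂ := fun v => b v * (ξ v * ((N8 v).sign : ℂ) ^ i) with hb'
  have hGb : ∀ v, b v ≠ 0 → nn v ≤ M' ∧ Q (nn v) := by
    intro v hv
    by_contra hcon
    have h1 : G (nn v) = 0 := by simp only [hG]; rw [if_neg hcon]
    have h2 := hb1 v
    rw [h1, mul_zero] at h2
    exact hv (norm_le_zero_iff.mp h2)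
  have h1 := hMV M' M₁ 3 α 1 Q b' hM₁ hMM ha0 ha1.le zero_le_one (by
    intro v
    simp only [hb']
    rw [norm_mul, norm_mul, one_mul]
    have g1 : ‖ξ v‖ * ‖((N8 v).sign : ℂ) ^ i‖ ≤ 1 :=
      mul_le_one₀ (LRS_xi q ξ hX v) (norm_nonneg _) (LRS_sign v i)
    have g2 : ‖b v‖ ≤ (#(nn v).divisors : ℝ) ^ 3 := by
      refine (hb1 v).trans ?_
      calc _ ≤ (#(nn v).divisors : ℝ) ^ 3 * 1 := mul_le_mul_of_nonneg_left (hG1 _) (by positivity)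
        _ = _ := mul_one _
    calc _ ≤ (#(nn v).divisors : ℝ) ^ 3 * 1 := mul_le_mul g2 g1 (by positivity) (by positivity)
      _ = _ := mul_one _)
    (by
      intro v hv
      have : b v ≠ 0 := by
        intro h
        apply hv
        simp only [hb', h, zero_mul]
      exact (hGb v this).2)
  have h2 := hx₁ x ((le_max_left _ _).trans hx) Z' M' hZ'L hM'1 hM4
  have h3 : ∀ m : ℤ, ∑ w ∈ FF M' with (smt Z (nn w) ∧ (x : ℝ) ^ ε < nn w), ∑ v ∈ FF M',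
      (mue w : ℂ) * (HX ξ i₁ i (fr α m) w * HX ξ i₁ i (fr α m) v) *
        (if M < nn w * nn v ∧ nn w * nn v ≤ M' then nit t ((nn w * nn v : ℕ) : ℝ) else 0)
      = ∑ v ∈ FF M', b' v * Complex.exp (((fr α m * yy v : ℝ) : ℂ) * Complex.I) := by
    intro m
    obtain ⟨u1, u2, _, _⟩ := hUHX.1 q ξ i₁ i (fr α m) hX (hXI m)
    have g1 := hb3 (HX ξ i₁ i (fr α m)) ⟨u1, u2⟩
    have g2 : ∑ w ∈ FF M' with (smt Z (nn w) ∧ (x : ℝ) ^ ε < nn w), ∑ v ∈ FF M',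
        (mue w : ℂ) * (HX ξ i₁ i (fr α m) w * HX ξ i₁ i (fr α m) v) *
        (if M < nn w * nn v ∧ nn w * nn v ≤ M' then nit t ((nn w * nn v : ℕ) : ℝ) else 0)
        = ∑ w ∈ FF M', ∑ v ∈ FF M', F w v * (HX ξ i₁ i (fr α m) w * HX ξ i₁ i (fr α m) v) := by
      rw [sum_filter]
      apply sum_congr rfl
      intro w _
      by_cases h : smt Z (nn w) ∧ (x : ℝ) ^ ε < nn w
      · rw [if_pos h]
        apply sum_congr rfl
        intro v _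
        simp only [hF]
        rw [if_pos h]
        ring
      · rw [if_neg h]
        symm
        apply sum_eq_zero
        intro v _
        simp only [hF]
        rw [if_neg h, zero_mul]
    rw [g2, g1]
    have g3 : FF M' ⊆ FF (M' * M') := by
      intro v hv
      rw [LRS_memFF hSIZ] at hv ⊢
      exact ⟨hv.1, hv.2.trans (Nat.le_mul_of_pos_left _ hM'1)⟩
    rw [← sum_subset g3]
    · apply sum_congr rfl
      intro v hv
      rw [LRS_memFF hSIZ] at hv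
      rw [LRS_HX ξ i₁ i _ v hv.1]
      simp only [hb']
      ring
    · intro v hv1 hv2
      have : b v = 0 := by
        by_contra hcon
        rw [LRS_memFF hSIZ] at hv1 hv2
        exact hv2 ⟨hv1.1, (hGb v hcon).1⟩
      rw [this, zero_mul]
  simp only [h3]
  refine h1.trans ?_
  have h4 : C * 1 ^ 2 * (M' : ℝ) * ∑ n ∈ Icc 1 M' with Q n, (#n.divisors : ℝ) ^ (2 * 3 + 2) ≤
      C * 1 ^ 2 * (M' : ℝ) * (M' / Real.log x ^ A) := by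
    apply mul_le_mul_of_nonneg_left _ (by positivity)
    exact h2
  refine h4.trans (le_of_eq ?_)
  ring

/-! ### small smooth divisors -/

open scoped Classical in
private theorem LRS_p2 (hSMW : SMW_stmt) (hUHX : UHX_stmt) (hFFC : FFC_stmt) (hSIZ : SIZ_stmt) :
    ∀ η : ℝ, 0 < η → η ≤ 1 → ∃ δ : ℝ, 0 < δ ∧ ∀ ε : ℝ, 0 < ε → ε ≤ η / 50 → ∃ x₀ : ℕ, ∀ x : ℕ, x₀ ≤ x →
    ∀ (q : ℕ) (ξ : ℤ × ℤ → ℂ) (i₁ i : ℕ) (α t Z : ℝ) (M M' M₁ : ℕ), IsX q ξ → (q : ℝ) ≤ (x : ℝ) ^ δ → 0 ≤ α → α < 2 * Real.pi →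
    (∀ m : ℤ, XInv ξ i₁ (fr α m)) → 1 ≤ M₁ → (M₁ : ℝ) ^ 2 * (x : ℝ) ^ η ≤ M → M ≤ M' → M' ≤ 2 * M →
    |t| ≤ (M₁ : ℝ) ^ 2 * (x : ℝ) ^ (19 * η / 50) → ∀ T : Finset ℤ, T ⊆ Icc (-(M₁ : ℤ)) M₁ → (∀ m ∈ T, NPr q ξ ∨ m ≠ 0) →
    ∑ m ∈ T, ‖∑ w ∈ FF M' with (smt Z (nn w) ∧ (nn w : ℝ) ≤ (x : ℝ) ^ ε), ∑ v ∈ FF M',
      (mue w : ℂ) * (HX ξ i₁ i (fr α m) w * HX ξ i₁ i (fr α m) v) *
        (if M < nn w * nn v ∧ nn w * nn v ≤ M' then nit t ((nn w * nn v : ℕ) : ℝ) else 0)‖ ^ 2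
      ≤ 6250 * ((M : ℝ) ^ 2 * ((x : ℝ) ^ (2 * ε) * (x : ℝ) ^ (-δ))) := by
  intro η h0 h1
  obtain ⟨δ, hδ, x₁, hx₁⟩ := LRS_smw2 hSMW hUHX hSIZ (97 * η / 100) (by positivity) (by linarith)
  refine ⟨δ, hδ, fun ε hε hεη => ?_⟩
  obtain ⟨x₂, hx₂⟩ := LRS_ev 2 0 (η / 100) (by positivity)
  refine ⟨max (max x₁ x₂) 1, fun x hx q ξ i₁ i α t Z M M' M₁ hX hq ha0 ha1 hXI hM₁ hM hMM hMM2 ht T hT hTe => ?_⟩
  have hxn : 1 ≤ x := (le_max_right _ _).trans hx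
  have hx1 : (1 : ℝ) ≤ x := by exact_mod_cast hxn
  have hx0 : (0 : ℝ) < x := by linarith
  have hx2 := hx₂ x ((le_max_right _ _).trans ((le_max_left _ _).trans hx))
  rw [pow_zero, mul_one] at hx2
  have hM₁r : (1 : ℝ) ≤ M₁ := by exact_mod_cast hM₁
  have hM₁2 : (1 : ℝ) ≤ (M₁ : ℝ) ^ 2 := one_le_pow₀ hM₁r
  set W := (FF M').filter (fun w => smt Z (nn w) ∧ (nn w : ℝ) ≤ (x : ℝ) ^ ε) with hW
  have hWc : (#W : ℝ) ≤ 25 * (x : ℝ) ^ ε := by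
    have hsub : W ⊆ FF ⌊(x : ℝ) ^ ε⌋₊ := by
      intro w hw
      rw [hW, mem_filter, LRS_memFF hSIZ] at hw
      rw [LRS_memFF hSIZ]
      exact ⟨hw.1.1, Nat.le_floor hw.2.2⟩
    have h2 : (#W : ℝ) ≤ #(FF ⌊(x : ℝ) ^ ε⌋₊) := by exact_mod_cast card_le_card hsub
    refine h2.trans ((hFFC _).1.trans ?_)
    apply mul_le_mul_of_nonneg_left _ (by norm_num)
    exact Nat.floor_le (by positivity)
  -- one w
  have hone : ∀ w ∈ W, ∑ m ∈ T, ‖∑ v ∈ FF (M' / nn w) with M / nn w < nn v, HX ξ i₁ i (fr α m) v * nit t (nn v)‖ ^ 2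
      ≤ 10 * ((M : ℝ) ^ 2 * (x : ℝ) ^ (-δ)) := by
    intro w hw
    rw [hW, mem_filter, LRS_memFF hSIZ] at hw
    obtain ⟨⟨w1, w2⟩, w3, w4⟩ := hw
    obtain ⟨_, _, hp, _⟩ := hSIZ w w1
    set a := nn w with ha
    have ha' : (0 : ℝ) < a := by exact_mod_cast hp
    have e1 : (M : ℝ) / a - 1 ≤ ((M / a : ℕ) : ℝ) := by
      have : M < a * (M / a + 1) := Nat.lt_mul_div_succ M hp
      have h2 : (M : ℝ) < a * (((M / a : ℕ) : ℝ) + 1) := by exact_mod_cast this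
      rw [sub_le_iff_le_add, div_le_iff₀ ha']
      linarith
    have e2 : (M₁ : ℝ) ^ 2 * (x : ℝ) ^ (97 * η / 100) ≤ (M : ℝ) / (2 * a) := by
      rw [le_div_iff₀ (by positivity)]
      have g1 : (x : ℝ) ^ (97 * η / 100) * ((x : ℝ) ^ (η / 100) * (x : ℝ) ^ (η / 50)) = (x : ℝ) ^ η := by
        rw [← Real.rpow_add hx0, ← Real.rpow_add hx0]
        congr 1
        ring
      have g2 : (a : ℝ) ≤ (x : ℝ) ^ (η / 50) := w4.trans (Real.rpow_le_rpow_of_exponent_le hx1 hεη)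
      have g3 : 2 * (a : ℝ) ≤ (x : ℝ) ^ (η / 100) * (x : ℝ) ^ (η / 50) := mul_le_mul hx2 g2 ha'.le (by positivity)
      calc (M₁ : ℝ) ^ 2 * (x : ℝ) ^ (97 * η / 100) * (2 * a)
          ≤ (M₁ : ℝ) ^ 2 * (x : ℝ) ^ (97 * η / 100) * ((x : ℝ) ^ (η / 100) * (x : ℝ) ^ (η / 50)) :=
            mul_le_mul_of_nonneg_left g3 (by positivity)
        _ = (M₁ : ℝ) ^ 2 * (x : ℝ) ^ η := by rw [mul_assoc, g1]
        _ ≤ M := hM
    have e3 : (1 : ℝ) ≤ (M₁ : ℝ) ^ 2 * (x : ℝ) ^ (97 * η / 100) := by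
      have := Real.one_le_rpow hx1 (show 0 ≤ 97 * η / 100 by positivity)
      nlinarith
    have e4 : (M : ℝ) / a = 2 * ((M : ℝ) / (2 * a)) := by field_simp
    have e5 : (M₁ : ℝ) ^ 2 * (x : ℝ) ^ (97 * η / 100) ≤ ((M / a : ℕ) : ℝ) := by linarith
    have e6 : 1 ≤ M / a := by
      have : (1 : ℝ) ≤ ((M / a : ℕ) : ℝ) := e3.trans e5
      exact_mod_cast this
    have e7 : M' / a ≤ 2 * (M / a) + 1 := by
      have : M < a * (M / a + 1) := Nat.lt_mul_div_succ M hp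
      have h2 : M' / a < 2 * (M / a) + 2 := by
        rw [Nat.div_lt_iff_lt_mul hp]
        have e : (2 * (M / a) + 2) * a = 2 * (a * (M / a + 1)) := by ring
        rw [e]
        omega
      omega
    have e8 : |t| ≤ (M₁ : ℝ) ^ 2 * (x : ℝ) ^ (2 * (97 * η / 100) / 5) := by
      refine ht.trans ?_
      apply mul_le_mul_of_nonneg_left _ (by positivity)
      apply Real.rpow_le_rpow_of_exponent_le hx1
      linarith
    have := hx₁ x ((le_max_left _ _).trans ((le_max_left _ _).trans hx)) q ξ i₁ i α t (M / a) (M' / a) M₁ hX hq ha0 ha1 hXI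
      hM₁ e5 (Nat.div_le_div_right hMM) e6 e7 e8 T hT hTe
    refine this.trans ?_
    have e9 : ((M / a : ℕ) : ℝ) ≤ M := by exact_mod_cast Nat.div_le_self M a
    gcongr
  have hS : ∀ m : ℤ, ‖∑ w ∈ W, ∑ v ∈ FF M',
      (mue w : ℂ) * (HX ξ i₁ i (fr α m) w * HX ξ i₁ i (fr α m) v) *
        (if M < nn w * nn v ∧ nn w * nn v ≤ M' then nit t ((nn w * nn v : ℕ) : ℝ) else 0)‖ ^ 2
      ≤ #W * ∑ w ∈ W, ‖∑ v ∈ FF (M' / nn w) with M / nn w < nn v, HX ξ i₁ i (fr α m) v * nit t (nn v)‖ ^ 2 := by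
    intro m
    have g1 : ‖∑ w ∈ W, ∑ v ∈ FF M',
        (mue w : ℂ) * (HX ξ i₁ i (fr α m) w * HX ξ i₁ i (fr α m) v) *
        (if M < nn w * nn v ∧ nn w * nn v ≤ M' then nit t ((nn w * nn v : ℕ) : ℝ) else 0)‖
        ≤ ∑ w ∈ W, ‖∑ v ∈ FF (M' / nn w) with M / nn w < nn v, HX ξ i₁ i (fr α m) v * nit t (nn v)‖ := by
      refine (norm_sum_le _ _).trans ?_
      apply sum_le_sum
      intro w hw
      rw [hW, mem_filter, LRS_memFF hSIZ] at hw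
      obtain ⟨⟨w1, w2⟩, w3, w4⟩ := hw
      obtain ⟨_, _, hp, _⟩ := hSIZ w w1
      have e1 : ∑ v ∈ FF M', (mue w : ℂ) * (HX ξ i₁ i (fr α m) w * HX ξ i₁ i (fr α m) v) *
          (if M < nn w * nn v ∧ nn w * nn v ≤ M' then nit t ((nn w * nn v : ℕ) : ℝ) else 0)
          = (mue w : ℂ) * HX ξ i₁ i (fr α m) w * (nit t (nn w) *
            ∑ v ∈ FF (M' / nn w) with M / nn w < nn v, HX ξ i₁ i (fr α m) v * nit t (nn v)) := by
        rw [← LRS_inner hSIZ _ t M M' (nn w) hp, mul_sum]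
        apply sum_congr rfl
        intro v _
        ring
      rw [e1, norm_mul, norm_mul, norm_mul, LRS_nit1, one_mul]
      have e2 : ‖(mue w : ℂ)‖ * ‖HX ξ i₁ i (fr α m) w‖ ≤ 1 :=
        mul_le_one₀ (LRS_mue w) (norm_nonneg _) (LRS_HXn q ξ hX i₁ i _ w w1)
      calc _ ≤ 1 * _ := mul_le_mul_of_nonneg_right e2 (norm_nonneg _)
        _ = _ := one_mul _
    refine (pow_le_pow_left₀ (norm_nonneg _) g1 2).trans ?_
    exact sq_sum_le_card_mul_sum_sq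
  calc _ ≤ ∑ m ∈ T, (#W : ℝ) * ∑ w ∈ W, ‖∑ v ∈ FF (M' / nn w) with M / nn w < nn v, HX ξ i₁ i (fr α m) v * nit t (nn v)‖ ^ 2 :=
        sum_le_sum fun m _ => hS m
    _ = (#W : ℝ) * ∑ w ∈ W, ∑ m ∈ T, ‖∑ v ∈ FF (M' / nn w) with M / nn w < nn v, HX ξ i₁ i (fr α m) v * nit t (nn v)‖ ^ 2 := by
        rw [← mul_sum, sum_comm]
    _ ≤ (#W : ℝ) * ∑ w ∈ W, 10 * ((M : ℝ) ^ 2 * (x : ℝ) ^ (-δ)) :=
        mul_le_mul_of_nonneg_left (sum_le_sum hone) (by positivity)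
    _ = (#W : ℝ) * #W * (10 * ((M : ℝ) ^ 2 * (x : ℝ) ^ (-δ))) := by
        rw [sum_const, nsmul_eq_mul]; ring
    _ ≤ (25 * (x : ℝ) ^ ε) * (25 * (x : ℝ) ^ ε) * (10 * ((M : ℝ) ^ 2 * (x : ℝ) ^ (-δ))) := by
        apply mul_le_mul_of_nonneg_right _ (by positivity)
        exact mul_le_mul hWc hWc (by positivity) (by positivity)
    _ = 6250 * ((M : ℝ) ^ 2 * ((x : ℝ) ^ (2 * ε) * (x : ℝ) ^ (-δ))) := by
        have e : (x : ℝ) ^ (2 * ε) = (x : ℝ) ^ ε * (x : ℝ) ^ ε := by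
          rw [← Real.rpow_add hx0]; congr 1; ring
        rw [e]; ring

theorem LRS (hSMW : SMW_stmt) (hRSE : RSE_stmt) (hPR2 : PR2_stmt) (hMVQ : MVQ_stmt) (hSMT : SMT_stmt) (hUHX : UHX_stmt)
    (hFFC : FFC_stmt) (hSIZ : SIZ_stmt) : LRS_stmt := by
  classical
  intro η h0 h1 A B C₀ hC₀
  obtain ⟨C, hC, hp1⟩ := LRS_p1 hPR2 hMVQ hSMT hUHX hSIZ
  obtain ⟨δ, hδ, hp2⟩ := LRS_p2 hSMW hUHX hFFC hSIZ η h0 h1
  set ε := min (η / 50) (δ / 8) with hε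
  have hε0 : 0 < ε := lt_min (by positivity) (by positivity)
  obtain ⟨x₁, hx₁⟩ := hp1 (A + 1) C₀ ε hC₀ hε0
  obtain ⟨x₂, hx₂⟩ := hp2 ε hε0 (min_le_left _ _)
  obtain ⟨x₃, hx₃⟩ := LRS_ev 1 B δ hδ
  obtain ⟨x₄, hx₄⟩ := LRS_ev 25000 A (3 * δ / 4) (by positivity)
  obtain ⟨x₅, hx₅⟩ := LRS_ev2 (16 * C + 1)
  refine ⟨x₁ + x₂ + x₃ + x₄ + x₅ + 2, ?_⟩
  intro x hx q ξ i₁ i α t Z M M' M₁ hD hZ hM₁ hM hMM hMM2 hM4 ht T hT hTe
  obtain ⟨hX, hqB, hi1, hi, ha0, ha1, hXI⟩ := hD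
  have hxn : 1 ≤ x := by omega
  have hx1 : (1 : ℝ) ≤ x := by exact_mod_cast hxn
  have hx0 : (0 : ℝ) < x := by linarith
  have hL5 := hx₅ x (by omega)
  have hL0 : 0 < Real.log x := by linarith
  have hq : (q : ℝ) ≤ (x : ℝ) ^ δ := by
    have := hx₃ x (by omega)
    linarith
  have hM₁r : (1 : ℝ) ≤ M₁ := by exact_mod_cast hM₁
  have hM₁M : M₁ ^ 2 ≤ M' := by
    have h2 : (M₁ : ℝ) ^ 2 ≤ M := by
      refine le_trans ?_ hM
      have := Real.one_le_rpow hx1 h0.le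
      have h3 : 0 ≤ (M₁ : ℝ) ^ 2 := by positivity
      nlinarith
    have h3 : M₁ ^ 2 ≤ M := by exact_mod_cast h2
    exact h3.trans hMM
  have q1 := hx₁ x (by omega) q ξ i₁ i α t Z M M' M₁ hX ha0 ha1 hXI hZ hM₁ hM₁M hM4
  have q2 := hx₂ x (by omega) q ξ i₁ i α t Z M M' M₁ hX hq ha0 ha1 hXI hM₁ hM hMM hMM2 ht T hT hTe
  have q1' := (sum_le_sum_of_subset_of_nonneg (f := fun m : ℤ => ‖∑ w ∈ FF M' with (smt Z (nn w) ∧ (x : ℝ) ^ ε < nn w), ∑ v ∈ FF M',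
      (mue w : ℂ) * (HX ξ i₁ i (fr α m) w * HX ξ i₁ i (fr α m) v) *
        (if M < nn w * nn v ∧ nn w * nn v ≤ M' then nit t ((nn w * nn v : ℕ) : ℝ) else 0)‖ ^ 2) hT
      fun _ _ _ => by positivity).trans q1
  -- the decomposition
  have hdec : ∀ m : ℤ, Sh (w1 Z) (HX ξ i₁ i (fr α m)) t M M' =
      (∑ w ∈ FF M' with (smt Z (nn w) ∧ (x : ℝ) ^ ε < nn w), ∑ v ∈ FF M',
      (mue w : ℂ) * (HX ξ i₁ i (fr α m) w * HX ξ i₁ i (fr α m) v) *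
        (if M < nn w * nn v ∧ nn w * nn v ≤ M' then nit t ((nn w * nn v : ℕ) : ℝ) else 0)) +
      (∑ w ∈ FF M' with (smt Z (nn w) ∧ (nn w : ℝ) ≤ (x : ℝ) ^ ε), ∑ v ∈ FF M',
      (mue w : ℂ) * (HX ξ i₁ i (fr α m) w * HX ξ i₁ i (fr α m) v) *
        (if M < nn w * nn v ∧ nn w * nn v ≤ M' then nit t ((nn w * nn v : ℕ) : ℝ) else 0)) := by
    intro m
    have g1 := hRSE q (HX ξ i₁ i (fr α m)) (hUHX.1 q ξ i₁ i (fr α m) hX (hXI m)) Z M'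
      (fun n => if M < n ∧ n ≤ M' then nit t ((n : ℕ) : ℝ) else 0) (by
        intro n hn
        by_contra hcon
        apply hn
        rw [if_neg]
        exact fun h => hcon h.2)
    have g2 : Sh (w1 Z) (HX ξ i₁ i (fr α m)) t M M' =
        ∑ z ∈ FF M', w1 Z z * HX ξ i₁ i (fr α m) z * (if M < nn z ∧ nn z ≤ M' then nit t ((nn z : ℕ) : ℝ) else 0) := by
      unfold Sh
      rw [sum_filter]
      apply sum_congr rfl
      intro z hz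
      rw [LRS_memFF hSIZ] at hz
      by_cases h : M < nn z
      · rw [if_pos h, if_pos ⟨h, hz.2⟩]; ring
      · rw [if_neg h, if_neg (fun hc => h hc.1), mul_zero]
    rw [g2, g1, ← sum_union]
    · apply sum_congr _ fun _ _ => rfl
      ext w
      simp only [mem_filter, mem_union]
      constructor
      · rintro ⟨h1, h2⟩
        rcases lt_or_ge ((x : ℝ) ^ ε) (nn w) with h3 | h3
        · exact Or.inl ⟨h1, h2, h3⟩
        · exact Or.inr ⟨h1, h2, h3⟩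
      · rintro (⟨h1, h2, h3⟩ | ⟨h1, h2, h3⟩)
        · exact ⟨h1, h2⟩
        · exact ⟨h1, h2⟩
    · rw [disjoint_left]
      intro w hw hw'
      rw [mem_filter] at hw hw'
      linarith [hw.2.2, hw'.2.2]
  simp only [hdec]
  refine (sum_le_sum fun m _ => LRS_sq2 _ _).trans ?_
  rw [sum_add_distrib, ← mul_sum, ← mul_sum]
  refine (add_le_add (mul_le_mul_of_nonneg_left q1' (by norm_num)) (mul_le_mul_of_nonneg_left q2 (by norm_num))).trans ?_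
  have hM0 : (0 : ℝ) ≤ M := Nat.cast_nonneg _
  have hLA : 0 < Real.log x ^ A := by positivity
  -- first part
  have r1 : 2 * (C * ((M' : ℝ) ^ 2 / Real.log x ^ (A + 1))) ≤ (M : ℝ) ^ 2 / Real.log x ^ A / 2 := by
    have e1 : (M' : ℝ) ≤ 2 * M := by exact_mod_cast hMM2
    have e2 : (M' : ℝ) ^ 2 ≤ 4 * (M : ℝ) ^ 2 := by
      have := pow_le_pow_left₀ (Nat.cast_nonneg M') e1 2
      linarith [this, show (2 * (M : ℝ)) ^ 2 = 4 * (M : ℝ) ^ 2 by ring]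
    have e3 : (M' : ℝ) ^ 2 / Real.log x ^ (A + 1) ≤ 4 * (M : ℝ) ^ 2 / Real.log x ^ (A + 1) := by
      apply div_le_div_of_nonneg_right e2 (by positivity)
    have e4 : 2 * (C * (4 * (M : ℝ) ^ 2 / Real.log x ^ (A + 1))) = (M : ℝ) ^ 2 / Real.log x ^ A * (8 * C / Real.log x) := by
      rw [pow_succ]; field_simp; ring
    have e5 : 8 * C / Real.log x ≤ 1 / 2 := by
      rw [div_le_iff₀ hL0]; linarith
    calc _ ≤ 2 * (C * (4 * (M : ℝ) ^ 2 / Real.log x ^ (A + 1))) := by gcongr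
      _ = (M : ℝ) ^ 2 / Real.log x ^ A * (8 * C / Real.log x) := e4
      _ ≤ (M : ℝ) ^ 2 / Real.log x ^ A * (1 / 2) := mul_le_mul_of_nonneg_left e5 (by positivity)
      _ = _ := by ring
  have r2 : 2 * (6250 * ((M : ℝ) ^ 2 * ((x : ℝ) ^ (2 * ε) * (x : ℝ) ^ (-δ)))) ≤ (M : ℝ) ^ 2 / Real.log x ^ A / 2 := by
    have e1 : (x : ℝ) ^ (2 * ε) * (x : ℝ) ^ (-δ) ≤ (x : ℝ) ^ (-(3 * δ / 4)) := by
      rw [← Real.rpow_add hx0]
      apply Real.rpow_le_rpow_of_exponent_le hx1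
      have : ε ≤ δ / 8 := min_le_right _ _
      linarith
    have e2 : (x : ℝ) ^ (-(3 * δ / 4)) ≤ 1 / (25000 * Real.log x ^ A) := by
      rw [Real.rpow_neg hx0.le, inv_eq_one_div]
      exact one_div_le_one_div_of_le (by positivity) (hx₄ x (by omega))
    calc _ ≤ 2 * (6250 * ((M : ℝ) ^ 2 * (1 / (25000 * Real.log x ^ A)))) := by
          have := e1.trans e2
          gcongr
      _ = _ := by field_simp; ring
  linarith

end Pool.Agent.EU
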