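import Pool.Agent.helper52.EU.SpecI

/-!
# Row eu:SME (MP_ad8ced): the small conductors
-/

set_option autoImplicit false

open Finset

namespace Pool.Agent.EU

open Pool.Agent.FI Pool.Agent.FJ

open scoped Classical in
/-- one modulus -/
theorem SME_e (hNCH : NCH_stmt) (x K₃ K₄ A R₀ : ℕ) (lam : ℤ → ℝ) (z z' : ℤ × ℤ) (D : ℕ) (hD : 1 ≤ D) (ω : ℤ) (Bd : ℝ)
    (h : ∀ χ : DirichletCharacter ℂ D, ‖∑ b ∈ range K₃, ∑ m ∈ GdC x K₃ K₄ A z z' b, Gc x K₃ K₄ lam b m χ - LL x A lam z z' χ‖ ≤ Bd) :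
    ‖∑ b ∈ range K₃, ∑ m ∈ GdC x K₃ K₄ A z z' b, Ec x K₃ K₄ (fun r => r ≤ R₀) lam b m D ω -
      1 / (Nat.totient D : ℂ) * ∑ χ : DirichletCharacter ℂ D with χ.conductor ≤ R₀,
        (starRingEnd ℂ) (χ (ω : ZMod D)) * LL x A lam z z' χ‖ ≤ 1 / (Nat.totient D : ℝ) * (R₀ ^ 2 * Bd) := by
  have hBd : 0 ≤ Bd := (norm_nonneg _).trans (h 1)
  have e1 : ∑ b ∈ range K₃, ∑ m ∈ GdC x K₃ K₄ A z z' b, Ec x K₃ K₄ (fun r => r ≤ R₀) lam b m D ω =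
      1 / (Nat.totient D : ℂ) * ∑ χ : DirichletCharacter ℂ D with χ.conductor ≤ R₀, (starRingEnd ℂ) (χ (ω : ZMod D)) *
        ∑ b ∈ range K₃, ∑ m ∈ GdC x K₃ K₄ A z z' b, Gc x K₃ K₄ lam b m χ := by
    have h0 : ∀ (b : ℕ) (m : ℤ), Ec x K₃ K₄ (fun r => r ≤ R₀) lam b m D ω = 1 / (Nat.totient D : ℂ) *
        ∑ χ : DirichletCharacter ℂ D with χ.conductor ≤ R₀, (starRingEnd ℂ) (χ (ω : ZMod D)) * Gc x K₃ K₄ lam b m χ := by
      intro b m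
      unfold Ec
      refine congrArg _ (sum_congr ?_ fun _ _ => rfl)
      ext χ
      simp
    have h1 : ∀ b ∈ range K₃, ∑ m ∈ GdC x K₃ K₄ A z z' b, 1 / (Nat.totient D : ℂ) *
        ∑ χ : DirichletCharacter ℂ D with χ.conductor ≤ R₀, (starRingEnd ℂ) (χ (ω : ZMod D)) * Gc x K₃ K₄ lam b m χ =
        1 / (Nat.totient D : ℂ) * ∑ χ : DirichletCharacter ℂ D with χ.conductor ≤ R₀,
          ∑ m ∈ GdC x K₃ K₄ A z z' b, (starRingEnd ℂ) (χ (ω : ZMod D)) * Gc x K₃ K₄ lam b m χ := by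
      intro b _
      rw [← mul_sum, sum_comm]
    rw [sum_congr rfl fun b _ => sum_congr rfl fun m _ => h0 b m, sum_congr rfl h1, ← mul_sum, sum_comm]
    refine congrArg _ (sum_congr rfl fun χ _ => ?_)
    rw [mul_sum]
    exact sum_congr rfl fun b _ => by rw [mul_sum]
  rw [e1, ← mul_sub, ← sum_sub_distrib, norm_mul]
  have h2 : ‖(1 : ℂ) / (Nat.totient D : ℂ)‖ = 1 / (Nat.totient D : ℝ) := by
    rw [norm_div, norm_one, Complex.norm_natCast]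
  rw [h2]
  refine mul_le_mul_of_nonneg_left ?_ (by positivity)
  have h3 : ∀ χ ∈ (Finset.univ.filter fun χ : DirichletCharacter ℂ D => χ.conductor ≤ R₀),
      ‖(starRingEnd ℂ) (χ (ω : ZMod D)) * ∑ b ∈ range K₃, ∑ m ∈ GdC x K₃ K₄ A z z' b, Gc x K₃ K₄ lam b m χ -
        (starRingEnd ℂ) (χ (ω : ZMod D)) * LL x A lam z z' χ‖ ≤ Bd := by
    intro χ _
    rw [← mul_sub, norm_mul, RCLike.norm_conj]
    have h4 : ‖χ (ω : ZMod D)‖ ≤ 1 := DirichletCharacter.norm_le_one χ _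
    exact (mul_le_of_le_one_left (norm_nonneg _) h4).trans (h χ)
  refine (norm_sum_le_of_le _ h3).trans ?_
  rw [sum_const, nsmul_eq_mul]
  refine mul_le_mul_of_nonneg_right ?_ hBd
  exact_mod_cast hNCH D R₀ hD

open scoped Classical in
/-- the sum over the pairs, by the value of `dl` -/
theorem SME_pairs (C₁ : ℝ) (hPAD : ∀ N D : ℕ, 1 ≤ N → (#{p ∈ ZD N ×ˢ ZD N | (dl p.1 p.2).natAbs = D} : ℝ) ≤ C₁ * N)
    (x N A K₁ : ℕ) (hx : 1 ≤ x) (hN : 1 ≤ N) (T : ℕ → ℝ) (hT0 : ∀ D, 0 ≤ T D) :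
    ∑ p ∈ Pr x N A K₁, T (dl p.1 p.2).natAbs ≤ C₁ * N * ∑ D ∈ Icc 1 (2 * N * A / x), T D := by
  have h4 : ∀ p ∈ Pr x N A K₁, (dl p.1 p.2).natAbs ∈ Icc 1 (2 * N * A / x) := by
    intro p hp
    obtain ⟨-, h5, h6⟩ := mem_filter.1 hp
    have h7 : 1 ≤ (dl p.1 p.2).natAbs := by
      by_contra h8
      have h9 : (dl p.1 p.2).natAbs = 0 := by omega
      rw [h9] at h5
      simp at h5
    rw [mem_Icc]
    refine ⟨h7, ?_⟩
    rw [Nat.le_div_iff_mul_le (by omega)]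
    calc (dl p.1 p.2).natAbs * x = x * (dl p.1 p.2).natAbs := by ring
      _ ≤ N * A := h6
      _ ≤ 2 * N * A := by nlinarith [Nat.zero_le (N * A)]
  rw [← sum_fiberwise_of_maps_to h4, mul_sum]
  refine sum_le_sum fun D hD => ?_
  have h5 : ∀ p ∈ (Pr x N A K₁).filter (fun p => (dl p.1 p.2).natAbs = D), T (dl p.1 p.2).natAbs = T D := by
    intro p hp
    rw [(mem_filter.1 hp).2]
  rw [sum_congr rfl h5, sum_const, nsmul_eq_mul]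
  refine mul_le_mul_of_nonneg_right ?_ (hT0 D)
  refine le_trans ?_ (hPAD N D hN)
  have h6 : (Pr x N A K₁).filter (fun p => (dl p.1 p.2).natAbs = D) ⊆
      (ZD N ×ˢ ZD N).filter (fun p => (dl p.1 p.2).natAbs = D) := by
    intro p hp
    obtain ⟨h7, h8⟩ := mem_filter.1 hp
    exact mem_filter.2 ⟨(mem_filter.1 h7).1, h8⟩
  exact_mod_cast card_le_card h6

theorem SME (hSMC : SMC_stmt) (hNCH : NCH_stmt) (hPAD : PAD_stmt) (hPHK : PHK_stmt) : SME_stmt := by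
  classical
  obtain ⟨C, hC, hSMC⟩ := hSMC
  obtain ⟨C₁, hC₁, hPAD⟩ := hPAD
  obtain ⟨C₂, hC₂, hPHK⟩ := hPHK
  refine ⟨2 * C * C₁ * C₂, by positivity, ?_⟩
  intro om x N A K₁ K₃ K₄ R₀ hx hN hA hAx hK₁ hK₃ hK₄ hK hxNA M Mβ lam β hM hMβ
  have hM0 : 0 ≤ M := (abs_nonneg _).trans (hM 0)
  have hMβ0 : 0 ≤ Mβ := (abs_nonneg _).trans (hMβ 0)
  have hN0 : (0 : ℝ) < N := by exact_mod_cast hN
  have hK₃0 : (0 : ℝ) < K₃ := by
    have : 0 < K₃ := by omega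
    exact_mod_cast this
  obtain ⟨Q, hQ⟩ : ∃ Q : ℝ, Q = R₀ ^ 2 * (C * M ^ 2 * ((A : ℝ) ^ 2 / K₃ + x)) := ⟨_, rfl⟩
  have hQ0 : 0 ≤ Q := by rw [hQ]; positivity
  have one : ∀ p ∈ Pr x N A K₁, ‖∑ b ∈ range K₃, ∑ m ∈ GdC x K₃ K₄ A p.1 p.2 b,
      (Ec x K₃ K₄ (fun r => r ≤ R₀) lam b m (1 * (dl p.1 p.2).natAbs) (om 1 p.1 p.2) -
        Ec x K₃ K₄ (fun r => r ≤ R₀) lam b m (2 * (dl p.1 p.2).natAbs) (om 2 p.1 p.2)) - SMLp x A R₀ om lam p.1 p.2‖ ≤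
      2 * Q * (1 / (Nat.totient (dl p.1 p.2).natAbs : ℝ)) := by
    intro p hp
    obtain ⟨hpZ, h5, h6⟩ := mem_filter.1 hp
    obtain ⟨hz, hz'⟩ := mem_product.1 hpZ
    have h7 : 1 ≤ (dl p.1 p.2).natAbs := by
      by_contra h8
      have h9 : (dl p.1 p.2).natAbs = 0 := by omega
      rw [h9] at h5
      simp at h5
    have hB : ∀ (D : ℕ) (χ : DirichletCharacter ℂ D),
        ‖∑ b ∈ range K₃, ∑ m ∈ GdC x K₃ K₄ A p.1 p.2 b, Gc x K₃ K₄ lam b m χ - LL x A lam p.1 p.2 χ‖ ≤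
          C * M ^ 2 * ((A : ℝ) ^ 2 / K₃ + x) := by
      intro D χ
      refine (hSMC x N A K₁ K₃ K₄ hx hN hA hAx hK₁ hK₃ hK₄ hK M lam hM p.1 hz p.2 hz' h5 D χ).trans ?_
      refine mul_le_mul_of_nonneg_left ?_ (by positivity)
      have h8 : (x : ℝ) * (dl p.1 p.2).natAbs ≤ N * A := by exact_mod_cast h6
      calc (x : ℝ) * ((dl p.1 p.2).natAbs * A / (K₃ * N) + 1) = (x * (dl p.1 p.2).natAbs) * (A / (K₃ * N)) + x := by ring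
        _ ≤ (N * A) * (A / (K₃ * N)) + x := by gcongr
        _ = (A : ℝ) ^ 2 / K₃ + x := by
            field_simp
    have he1 := SME_e hNCH x K₃ K₄ A R₀ lam p.1 p.2 (1 * (dl p.1 p.2).natAbs) (by omega) (om 1 p.1 p.2) _ (hB _)
    have he2 := SME_e hNCH x K₃ K₄ A R₀ lam p.1 p.2 (2 * (dl p.1 p.2).natAbs) (by omega) (om 2 p.1 p.2) _ (hB _)
    rw [← hQ] at he1 he2
    have hd0 : (0 : ℝ) < Nat.totient (dl p.1 p.2).natAbs := by exact_mod_cast Nat.totient_pos.2 h7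
    have hφ : (Nat.totient (dl p.1 p.2).natAbs : ℝ) ≤ Nat.totient (2 * (dl p.1 p.2).natAbs) := by
      have h8 : Nat.totient (dl p.1 p.2).natAbs ≤ Nat.totient (2 * (dl p.1 p.2).natAbs) :=
        Nat.le_of_dvd (Nat.totient_pos.2 (by omega)) (Nat.totient_dvd_of_dvd (Dvd.intro_left 2 rfl))
      exact_mod_cast h8
    have hq1 : 1 / (Nat.totient (1 * (dl p.1 p.2).natAbs) : ℝ) * Q ≤ Q * (1 / (Nat.totient (dl p.1 p.2).natAbs : ℝ)) := by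
      rw [one_mul, mul_comm]
    have hq2 : 1 / (Nat.totient (2 * (dl p.1 p.2).natAbs) : ℝ) * Q ≤ Q * (1 / (Nat.totient (dl p.1 p.2).natAbs : ℝ)) := by
      rw [mul_comm]
      exact mul_le_mul_of_nonneg_left (one_div_le_one_div_of_le hd0 hφ) hQ0
    have e0 : SMLp x A R₀ om lam p.1 p.2 =
        1 / (Nat.totient (1 * (dl p.1 p.2).natAbs) : ℂ) * ∑ χ : DirichletCharacter ℂ (1 * (dl p.1 p.2).natAbs) with χ.conductor ≤ R₀,
          (starRingEnd ℂ) (χ (om 1 p.1 p.2 : ZMod (1 * (dl p.1 p.2).natAbs))) * LL x A lam p.1 p.2 χ -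
        1 / (Nat.totient (2 * (dl p.1 p.2).natAbs) : ℂ) * ∑ χ : DirichletCharacter ℂ (2 * (dl p.1 p.2).natAbs) with χ.conductor ≤ R₀,
          (starRingEnd ℂ) (χ (om 2 p.1 p.2 : ZMod (2 * (dl p.1 p.2).natAbs))) * LL x A lam p.1 p.2 χ := by
      unfold SMLp
      rw [sum_pair (by norm_num)]
      norm_num
      ring
    have e1 : ∑ b ∈ range K₃, ∑ m ∈ GdC x K₃ K₄ A p.1 p.2 b,
        (Ec x K₃ K₄ (fun r => r ≤ R₀) lam b m (1 * (dl p.1 p.2).natAbs) (om 1 p.1 p.2) -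
          Ec x K₃ K₄ (fun r => r ≤ R₀) lam b m (2 * (dl p.1 p.2).natAbs) (om 2 p.1 p.2)) =
        ∑ b ∈ range K₃, ∑ m ∈ GdC x K₃ K₄ A p.1 p.2 b, Ec x K₃ K₄ (fun r => r ≤ R₀) lam b m (1 * (dl p.1 p.2).natAbs) (om 1 p.1 p.2) -
        ∑ b ∈ range K₃, ∑ m ∈ GdC x K₃ K₄ A p.1 p.2 b, Ec x K₃ K₄ (fun r => r ≤ R₀) lam b m (2 * (dl p.1 p.2).natAbs) (om 2 p.1 p.2) := by
      rw [← sum_sub_distrib]
      exact sum_congr rfl fun b _ => by rw [sum_sub_distrib]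
    rw [e0, e1, sub_sub_sub_comm]
    refine (norm_sub_le _ _).trans ?_
    linarith
  have tot : ∑ p ∈ Pr x N A K₁, (β p.1 : ℂ) * β p.2 * ∑ b ∈ range K₃, ∑ m ∈ GdC x K₃ K₄ A p.1 p.2 b,
      (Ec x K₃ K₄ (fun r => r ≤ R₀) lam b m (1 * (dl p.1 p.2).natAbs) (om 1 p.1 p.2) -
        Ec x K₃ K₄ (fun r => r ≤ R₀) lam b m (2 * (dl p.1 p.2).natAbs) (om 2 p.1 p.2)) - SML x N A K₁ R₀ om β lam =
      ∑ p ∈ Pr x N A K₁, (β p.1 : ℂ) * β p.2 * (∑ b ∈ range K₃, ∑ m ∈ GdC x K₃ K₄ A p.1 p.2 b,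
      (Ec x K₃ K₄ (fun r => r ≤ R₀) lam b m (1 * (dl p.1 p.2).natAbs) (om 1 p.1 p.2) -
        Ec x K₃ K₄ (fun r => r ≤ R₀) lam b m (2 * (dl p.1 p.2).natAbs) (om 2 p.1 p.2)) - SMLp x A R₀ om lam p.1 p.2) := by
    unfold SML
    rw [← sum_sub_distrib]
    exact sum_congr rfl fun p _ => by rw [mul_sub]
  rw [tot]
  have hterm : ∀ p ∈ Pr x N A K₁, ‖(β p.1 : ℂ) * β p.2 * (∑ b ∈ range K₃, ∑ m ∈ GdC x K₃ K₄ A p.1 p.2 b,
      (Ec x K₃ K₄ (fun r => r ≤ R₀) lam b m (1 * (dl p.1 p.2).natAbs) (om 1 p.1 p.2) -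
        Ec x K₃ K₄ (fun r => r ≤ R₀) lam b m (2 * (dl p.1 p.2).natAbs) (om 2 p.1 p.2)) - SMLp x A R₀ om lam p.1 p.2)‖ ≤
      (fun D : ℕ => Mβ ^ 2 * (2 * Q * (1 / (Nat.totient D : ℝ)))) (dl p.1 p.2).natAbs := by
    intro p hp
    rw [norm_mul, norm_mul, Complex.norm_real, Complex.norm_real, Real.norm_eq_abs, Real.norm_eq_abs]
    have h1 : |β p.1| * |β p.2| ≤ Mβ ^ 2 := by
      rw [sq]
      exact mul_le_mul (hMβ _) (hMβ _) (abs_nonneg _) hMβ0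
    exact mul_le_mul h1 (one p hp) (norm_nonneg _) (by positivity)
  refine (norm_sum_le_of_le _ hterm).trans ?_
  refine (SME_pairs C₁ hPAD x N A K₁ hx hN (fun D : ℕ => Mβ ^ 2 * (2 * Q * (1 / (Nat.totient D : ℝ)))) (fun D => by positivity)).trans ?_
  have hsum : ∑ D ∈ Icc 1 (2 * N * A / x), Mβ ^ 2 * (2 * Q * (1 / (Nat.totient D : ℝ))) =
      Mβ ^ 2 * (2 * Q) * ∑ D ∈ Icc 1 (2 * N * A / x), 1 / (Nat.totient D : ℝ) := by
    rw [mul_sum]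
    exact sum_congr rfl fun D _ => by ring
  have hD1 : 1 ≤ 2 * N * A / x := by
    rw [Nat.le_div_iff_mul_le (by omega)]
    nlinarith [Nat.zero_le (N * A)]
  have hlog := hPHK (2 * N * A / x) hD1
  rw [hsum]
  calc C₁ * N * (Mβ ^ 2 * (2 * Q) * ∑ D ∈ Icc 1 (2 * N * A / x), 1 / (Nat.totient D : ℝ)) ≤
        C₁ * N * (Mβ ^ 2 * (2 * Q) * (C₂ * (1 + Real.log (2 * N * A / x : ℕ)))) := by gcongr
    _ = 2 * C * C₁ * C₂ * Mβ ^ 2 * M ^ 2 * R₀ ^ 2 * (1 + Real.log (2 * N * A / x : ℕ)) * (N * A ^ 2 / K₃ + x * N) := by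
        rw [hQ]
        ring

end Pool.Agent.EU
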