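import Pool.Agent.helper52.EU.SpecW

/-!
Row WRI of project eu (MP_ad8ced_nt): one row of the smooth sum and its integral.
-/

set_option autoImplicit false

open Finset

namespace Pool.Agent.EU

open Pool.Agent.FI Pool.Agent.HK Pool.Agent.BP
open Pool.Agent.CH (nit)

/-! ### sums over a progression and integrals -/

private theorem WRI_step (F : ℝ → ℂ) (A B D : ℝ) (q : ℕ) (hq : 1 ≤ q) (hD : 0 ≤ D)
    (hF : ∀ v w, A ≤ v → v ≤ B → A ≤ w → w ≤ B → ‖F v - F w‖ ≤ D * |v - w|)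
    (hc : ContinuousOn F (Set.Icc A B)) (x : ℝ) (h0 : A ≤ x) (h1 : x + q ≤ B) :
    ‖F x - 1 / (q : ℂ) * ∫ v in x..(x + q), F v‖ ≤ D * q := by
  have hq' : (0 : ℝ) < q := by exact_mod_cast hq
  have hqc : (q : ℂ) ≠ 0 := by exact_mod_cast hq'.ne'
  have hi : IntervalIntegrable F MeasureTheory.volume x (x + q) := by
    apply ContinuousOn.intervalIntegrable_of_Icc (by linarith)
    exact hc.mono (Set.Icc_subset_Icc h0 h1)
  have e1 : F x - 1 / (q : ℂ) * ∫ v in x..(x + q), F v = 1 / (q : ℂ) * ∫ v in x..(x + q), (F x - F v) := by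
    rw [intervalIntegral.integral_sub intervalIntegrable_const hi, intervalIntegral.integral_const,
      show x + (q : ℝ) - x = q by ring, Complex.real_smul]
    push_cast
    field_simp
  have e2 : ‖∫ v in x..(x + q), (F x - F v)‖ ≤ D * q * |x + q - x| := by
    apply intervalIntegral.norm_integral_le_of_norm_le_const
    intro v hv
    rw [Set.uIoc_of_le (by linarith)] at hv
    refine (hF x v h0 (by linarith) (by linarith [hv.1]) (by linarith [hv.2])).trans ?_
    apply mul_le_mul_of_nonneg_left _ hD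
    rw [abs_sub_comm, abs_of_pos (by linarith [hv.1])]
    linarith [hv.2]
  rw [show x + (q : ℝ) - x = q by ring, abs_of_pos hq'] at e2
  rw [e1, norm_mul, norm_div, norm_one, Complex.norm_natCast]
  calc 1 / (q : ℝ) * ‖∫ v in x..(x + q), (F x - F v)‖ ≤ 1 / (q : ℝ) * (D * q * q) :=
        mul_le_mul_of_nonneg_left e2 (by positivity)
    _ = D * q := by field_simp

private theorem WRI_prog (F : ℝ → ℂ) (A B D : ℝ) (q : ℕ) (hq : 1 ≤ q) (hD : 0 ≤ D)
    (hF : ∀ v w, A ≤ v → v ≤ B → A ≤ w → w ≤ B → ‖F v - F w‖ ≤ D * |v - w|)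
    (hc : ContinuousOn F (Set.Icc A B)) (m₀ : ℝ) (h0 : A ≤ m₀) (k : ℕ) (hk : m₀ + k * q ≤ B) :
    ‖∑ i ∈ range k, F (m₀ + i * q) - 1 / (q : ℂ) * ∫ v in m₀..(m₀ + k * q), F v‖ ≤ k * (D * q) := by
  have hq' : (0 : ℝ) < q := by exact_mod_cast hq
  induction k with
  | zero => simp
  | succ k ih =>
    have hk0 : (0 : ℝ) ≤ k * q := by positivity
    have hk' : m₀ + (k : ℝ) * q + q ≤ B := by push_cast at hk; linarith
    have hk1 : m₀ + (k : ℝ) * q ≤ B := by linarith
    have e0 : m₀ + ((k + 1 : ℕ) : ℝ) * q = m₀ + (k : ℝ) * q + q := by push_cast; ring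
    have i1 : IntervalIntegrable F MeasureTheory.volume m₀ (m₀ + k * q) := by
      apply ContinuousOn.intervalIntegrable_of_Icc (by linarith)
      exact hc.mono (Set.Icc_subset_Icc h0 hk1)
    have i2 : IntervalIntegrable F MeasureTheory.volume (m₀ + k * q) (m₀ + k * q + q) := by
      apply ContinuousOn.intervalIntegrable_of_Icc (by linarith)
      exact hc.mono (Set.Icc_subset_Icc (by linarith) hk')
    rw [e0, sum_range_succ, ← intervalIntegral.integral_add_adjacent_intervals i1 i2]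
    have e1 := WRI_step F A B D q hq hD hF hc (m₀ + k * q) (by linarith) hk'
    have e2 : ∑ i ∈ range k, F (m₀ + i * q) + F (m₀ + k * q)
          - 1 / (q : ℂ) * ((∫ v in m₀..(m₀ + k * q), F v) + ∫ v in (m₀ + k * q)..(m₀ + k * q + q), F v)
        = (∑ i ∈ range k, F (m₀ + i * q) - 1 / (q : ℂ) * ∫ v in m₀..(m₀ + k * q), F v)
          + (F (m₀ + k * q) - 1 / (q : ℂ) * ∫ v in (m₀ + k * q)..(m₀ + k * q + q), F v) := by ring
    rw [e2]
    refine (norm_add_le _ _).trans ?_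
    refine (add_le_add (ih hk1) e1).trans ?_
    push_cast
    linarith

private theorem WRI_short (F : ℝ → ℂ) (A B : ℝ) (q : ℕ) (hq : 1 ≤ q) (hAB : A ≤ B) (hl : B - A ≤ q)
    (hF1 : ∀ v, A ≤ v → v ≤ B → ‖F v‖ ≤ 1) : ‖1 / (q : ℂ) * ∫ v in A..B, F v‖ ≤ 1 := by
  have hq' : (0 : ℝ) < q := by exact_mod_cast hq
  have e2 : ‖∫ v in A..B, F v‖ ≤ 1 * |B - A| := by
    apply intervalIntegral.norm_integral_le_of_norm_le_const
    intro v hv
    rw [Set.uIoc_of_le hAB] at hv
    exact hF1 v hv.1.le hv.2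
  rw [abs_of_nonneg (by linarith), one_mul] at e2
  rw [norm_mul, norm_div, norm_one, Complex.norm_natCast]
  calc 1 / (q : ℝ) * ‖∫ v in A..B, F v‖ ≤ 1 / (q : ℝ) * q :=
        mul_le_mul_of_nonneg_left (e2.trans hl) (by positivity)
    _ = 1 := by field_simp

private theorem WRI_gl (F : ℝ → ℂ) (A B D : ℝ) (q : ℕ) (c : ℤ) (S : Finset ℤ) (hq : 1 ≤ q) (hD : 0 ≤ D)
    (hAB : A ≤ B) (hF1 : ∀ v, A ≤ v → v ≤ B → ‖F v‖ ≤ 1)
    (hF : ∀ v w, A ≤ v → v ≤ B → A ≤ w → w ≤ B → ‖F v - F w‖ ≤ D * |v - w|)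
    (hS1 : ∀ m ∈ S, A ≤ (m : ℝ) ∧ (m : ℝ) ≤ B ∧ (q : ℤ) ∣ m - c)
    (hS2 : ∀ m : ℤ, A < m → (m : ℝ) < B → (q : ℤ) ∣ m - c → m ∈ S) :
    ‖∑ m ∈ S, F m - 1 / (q : ℂ) * ∫ v in A..B, F v‖ ≤ 3 + D * (B - A) := by
  have hq' : (0 : ℝ) < q := by exact_mod_cast hq
  have hqz : (0 : ℤ) < q := by exact_mod_cast hq
  have hc : ContinuousOn F (Set.Icc A B) := by
    have : LipschitzOnWith D.toNNReal F (Set.Icc A B) := by
      apply LipschitzOnWith.of_dist_le_mul
      intro v hv w hw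
      rw [dist_eq_norm, Real.dist_eq, Real.coe_toNNReal _ hD]
      exact hF v w hv.1 hv.2 hw.1 hw.2
    exact this.continuousOn
  have hDn : 0 ≤ D * (B - A) := mul_nonneg hD (by linarith)
  rcases S.eq_empty_or_nonempty with he | hne
  · -- no point: the interval is short
    have hl : B - A ≤ q := by
      by_contra hcon
      push Not at hcon
      set j := ⌊(A - c) / q⌋ + 1 with hj
      have h1 : (A - c) / q < (j : ℝ) := by
        rw [hj]; push_cast; exact Int.lt_floor_add_one _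
      have h2 : (j : ℝ) ≤ (A - c) / q + 1 := by
        rw [hj]; push_cast; linarith [Int.floor_le ((A - c) / (q : ℝ))]
      have h3 : A - c < j * q := by rwa [div_lt_iff₀ hq'] at h1
      have h4 : (j : ℝ) * q ≤ A - c + q := by
        calc (j : ℝ) * q ≤ ((A - c) / q + 1) * q := mul_le_mul_of_nonneg_right h2 hq'.le
          _ = A - c + q := by field_simp
      have h5 : c + j * q ∈ S := by
        apply hS2
        · push_cast; linarith
        · push_cast; linarith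
        · exact ⟨j, by ring⟩
      rw [he] at h5
      exact absurd h5 (Finset.notMem_empty _)
    rw [he, sum_empty, zero_sub, norm_neg]
    have := WRI_short F A B q hq hAB hl hF1
    linarith
  · set m₀ := S.min' hne with hm₀
    set m₁ := S.max' hne with hm₁
    have h0S : m₀ ∈ S := S.min'_mem hne
    have h1S : m₁ ∈ S := S.max'_mem hne
    obtain ⟨a0, b0, c0⟩ := hS1 m₀ h0S
    obtain ⟨a1, b1, c1⟩ := hS1 m₁ h1S
    have h01 : m₀ ≤ m₁ := S.min'_le _ h1S
    obtain ⟨k', hk'⟩ : (q : ℤ) ∣ m₁ - m₀ := by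
      have : m₁ - m₀ = (m₁ - c) - (m₀ - c) := by ring
      rw [this]; exact dvd_sub c1 c0
    have hk0 : 0 ≤ k' := by
      by_contra hcon
      push Not at hcon
      nlinarith
    obtain ⟨k, rfl⟩ := Int.eq_ofNat_of_zero_le hk0
    have hm1 : m₁ = m₀ + k * q := by linarith
    have hm1' : (m₁ : ℝ) = m₀ + k * q := by rw [hm1]; push_cast; ring
    have hA : (m₀ : ℝ) - A ≤ q := by
      by_contra hcon
      push Not at hcon
      have : m₀ - q ∈ S := by
        apply hS2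
        · push_cast; linarith
        · push_cast; linarith
        · have e : m₀ - q - c = (m₀ - c) - q := by ring
          rw [e]; exact dvd_sub c0 dvd_rfl
      have := S.min'_le _ this
      rw [← hm₀] at this
      linarith
    have hB : B - (m₁ : ℝ) ≤ q := by
      by_contra hcon
      push Not at hcon
      have : m₁ + q ∈ S := by
        apply hS2
        · push_cast; linarith
        · push_cast; linarith
        · have e : m₁ + q - c = (m₁ - c) + q := by ring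
          rw [e]; exact dvd_add c1 dvd_rfl
      have := S.le_max' _ this
      rw [← hm₁] at this
      linarith
    have hSe : S = (range (k + 1)).image (fun i : ℕ => m₀ + (i : ℤ) * q) := by
      ext m
      rw [mem_image]
      constructor
      · intro hm
        obtain ⟨_, _, cm⟩ := hS1 m hm
        obtain ⟨j, hj⟩ : (q : ℤ) ∣ m - m₀ := by
          have : m - m₀ = (m - c) - (m₀ - c) := by ring
          rw [this]; exact dvd_sub cm c0
        have g0 : m₀ ≤ m := S.min'_le _ hm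
        have g1 : m ≤ m₁ := S.le_max' _ hm
        have j0 : 0 ≤ j := by
          by_contra hcon
          push Not at hcon
          nlinarith
        obtain ⟨i, rfl⟩ := Int.eq_ofNat_of_zero_le j0
        refine ⟨i, ?_, by linarith⟩
        rw [mem_range]
        have : (q : ℤ) * i ≤ q * k := by linarith
        have := le_of_mul_le_mul_left this hqz
        omega
      · rintro ⟨i, hi, rfl⟩
        rw [mem_range] at hi
        rcases Nat.eq_zero_or_pos i with hi0 | hi0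
        · rw [hi0]; simpa using h0S
        · rcases Nat.lt_or_ge i k with hik | hik
          · apply hS2
            · push_cast
              have : (0 : ℝ) < i * q := by
                have : (0 : ℝ) < i := by exact_mod_cast hi0
                positivity
              linarith
            · push_cast
              have : (i : ℝ) * q < k * q := by
                apply mul_lt_mul_of_pos_right _ hq'
                exact_mod_cast hik
              linarith
            · have e : m₀ + (i : ℤ) * q - c = (m₀ - c) + i * q := by ring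
              rw [e]; exact dvd_add c0 (dvd_mul_left _ _)
          · have : i = k := by omega
            rw [this, ← hm1]; exact h1S
    have hinj : Set.InjOn (fun i : ℕ => m₀ + (i : ℤ) * q) (range (k + 1)) := by
      intro i _ j _ hij
      have : (i : ℤ) * q = j * q := by simpa using hij
      have := mul_right_cancel₀ hqz.ne' this
      exact_mod_cast this
    have hsum : ∑ m ∈ S, F m = ∑ i ∈ range k, F ((m₀ : ℝ) + i * q) + F m₁ := by
      rw [hSe, sum_image hinj, sum_range_succ]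
      congr 1
      · apply sum_congr rfl
        intro i _
        push_cast
        rfl
      · rw [hm1']
        push_cast
        rfl
    have i0 : IntervalIntegrable F MeasureTheory.volume A m₀ := by
      apply ContinuousOn.intervalIntegrable_of_Icc a0
      exact hc.mono (Set.Icc_subset_Icc le_rfl b0)
    have i1 : IntervalIntegrable F MeasureTheory.volume m₀ m₁ := by
      apply ContinuousOn.intervalIntegrable_of_Icc (by exact_mod_cast h01)
      exact hc.mono (Set.Icc_subset_Icc a0 b1)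
    have i2 : IntervalIntegrable F MeasureTheory.volume m₁ B := by
      apply ContinuousOn.intervalIntegrable_of_Icc b1
      exact hc.mono (Set.Icc_subset_Icc a1 le_rfl)
    have hI : ∫ v in A..B, F v = (∫ v in A..(m₀ : ℝ), F v) + (∫ v in (m₀ : ℝ)..(m₁ : ℝ), F v) + ∫ v in (m₁ : ℝ)..B, F v := by
      rw [intervalIntegral.integral_add_adjacent_intervals i0 i1,
        intervalIntegral.integral_add_adjacent_intervals (i0.trans i1) i2]
    have t1 := WRI_prog F A B D q hq hD hF hc m₀ a0 k (by rw [← hm1']; exact b1)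
    rw [← hm1'] at t1
    have t2 := hF1 m₁ a1 b1
    have t3 := WRI_short F A m₀ q hq a0 hA (fun v h1 h2 => hF1 v h1 (h2.trans b0))
    have t4 := WRI_short F m₁ B q hq b1 hB (fun v h1 h2 => hF1 v (a1.trans h1) h2)
    have e : ∑ m ∈ S, F m - 1 / (q : ℂ) * ∫ v in A..B, F v
        = (∑ i ∈ range k, F ((m₀ : ℝ) + i * q) - 1 / (q : ℂ) * ∫ v in (m₀ : ℝ)..(m₁ : ℝ), F v) + F m₁
          - 1 / (q : ℂ) * (∫ v in A..(m₀ : ℝ), F v) - 1 / (q : ℂ) * ∫ v in (m₁ : ℝ)..B, F v := by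
      rw [hsum, hI]; ring
    rw [e]
    have t5 : (k : ℝ) * (D * q) ≤ D * (B - A) := by
      have : (k : ℝ) * q ≤ B - A := by linarith
      calc (k : ℝ) * (D * q) = D * (k * q) := by ring
        _ ≤ D * (B - A) := mul_le_mul_of_nonneg_left this hD
    calc _ ≤ ‖(∑ i ∈ range k, F ((m₀ : ℝ) + i * q) - 1 / (q : ℂ) * ∫ v in (m₀ : ℝ)..(m₁ : ℝ), F v)‖ + ‖F m₁‖
          + ‖1 / (q : ℂ) * (∫ v in A..(m₀ : ℝ), F v)‖ + ‖1 / (q : ℂ) * ∫ v in (m₁ : ℝ)..B, F v‖ := by
          refine (norm_sub_le _ _).trans (add_le_add ?_ le_rfl)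
          refine (norm_sub_le _ _).trans (add_le_add ?_ le_rfl)
          exact norm_add_le _ _
      _ ≤ D * (B - A) + 1 + 1 + 1 := by gcongr; exact t1.trans t5
      _ = 3 + D * (B - A) := by ring

/-! ### the hyperbolic tangent -/

private theorem WRI_cosh (t : ℝ) : 1 / Real.cosh t ^ 2 = 1 - Real.tanh t ^ 2 := by
  have h0 := Real.cosh_pos t
  have h1 := Real.cosh_sq t
  rw [Real.tanh_eq_sinh_div_cosh]
  field_simp
  linarith

private theorem WRI_deriv (t : ℝ) : HasDerivAt Real.tanh (1 / Real.cosh t ^ 2) t := by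
  have h0 := (Real.cosh_pos t).ne'
  have h1 := (Real.hasDerivAt_sinh t).div (Real.hasDerivAt_cosh t) h0
  have h2 : (Real.cosh t * Real.cosh t - Real.sinh t * Real.sinh t) / Real.cosh t ^ 2 =
      1 / Real.cosh t ^ 2 := by
    have := Real.cosh_sq t
    congr 1
    nlinarith
  rw [h2] at h1
  have h3 : (Real.sinh / Real.cosh) = Real.tanh := by
    funext y
    rw [Pi.div_apply, Real.tanh_eq_sinh_div_cosh]
  rw [h3] at h1
  exact h1

private theorem WRI_s8 : √(8 : ℝ) * √8 = 8 := Real.mul_self_sqrt (by norm_num)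

private theorem WRI_lep : Real.cosh lep = 3 := by
  have h8 := WRI_s8
  have h0 : (0 : ℝ) < √8 := Real.sqrt_pos.mpr (by norm_num)
  have h3 : √(8 : ℝ) ^ 2 = 8 := by rw [sq]; exact h8
  rw [lep, Real.cosh_log (by positivity)]
  have : (3 + √8 : ℝ)⁻¹ = 3 - √8 := by
    rw [inv_eq_one_div, div_eq_iff (by positivity)]
    nlinarith
  rw [this]; ring

private theorem WRI_c2 (u : ℝ) (h0 : -lep ≤ u) (h1 : u ≤ lep) : Real.cosh (u / 2) ^ 2 ≤ 2 := by
  have h2 : Real.cosh u ≤ Real.cosh lep := by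
    rw [Real.cosh_le_cosh]
    rw [abs_of_nonneg (by linarith : 0 ≤ lep)]
    exact abs_le.mpr ⟨h0, h1⟩
  have h3 := Real.cosh_two_mul (u / 2)
  rw [show 2 * (u / 2) = u by ring] at h3
  have h4 := Real.cosh_sq (u / 2)
  rw [WRI_lep] at h2
  linarith

private theorem WRI_t2 (u : ℝ) (h0 : -lep ≤ u) (h1 : u ≤ lep) : Real.tanh (u / 2) ^ 2 ≤ 1 / 2 := by
  have h2 := WRI_cosh (u / 2)
  have h3 := WRI_c2 u h0 h1
  have h4 : 0 < Real.cosh (u / 2) ^ 2 := by have := Real.cosh_pos (u / 2); positivity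
  have h5 : 1 / 2 ≤ 1 / Real.cosh (u / 2) ^ 2 := one_div_le_one_div_of_le h4 h3
  linarith

/-! ### the character -/

private theorem WRI_nit1 (t x : ℝ) : ‖nit t x‖ = 1 := by
  unfold nit
  exact Complex.norm_exp_ofReal_mul_I _

private theorem WRI_nitL (t x y : ℝ) : ‖nit t x - nit t y‖ ≤ |t| * |Real.log x - Real.log y| := by
  have e : nit t x - nit t y = nit t y * (Complex.exp (Complex.I * ((t * (Real.log x - Real.log y) : ℝ) : ℂ)) - 1) := by
    unfold nit
    rw [mul_sub, mul_one, ← Complex.exp_add]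
    congr 2
    push_cast
    ring
  rw [e, norm_mul, WRI_nit1, one_mul]
  refine (Real.norm_exp_I_mul_ofReal_sub_one_le).trans ?_
  rw [Real.norm_eq_abs, abs_mul]

private theorem WRI_logL (x y m : ℝ) (hm : 0 < m) (hx : m ≤ x) (hy : m ≤ y) :
    |Real.log x - Real.log y| ≤ |x - y| / m := by
  have key : ∀ x y : ℝ, m ≤ x → m ≤ y → Real.log x - Real.log y ≤ |x - y| / m := by
    intro x y hx hy
    have hx' : 0 < x := by linarith
    have hy' : 0 < y := by linarith
    rw [← Real.log_div hx'.ne' hy'.ne']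
    refine (Real.log_le_sub_one_of_pos (by positivity)).trans ?_
    have : x / y - 1 = (x - y) / y := by field_simp
    rw [this]
    refine (div_le_div_of_nonneg_right (le_abs_self _) hy'.le).trans ?_
    exact div_le_div_of_nonneg_left (abs_nonneg _) hm hy
  rw [abs_le]
  constructor
  · have := key y x hy hx
    rw [abs_sub_comm] at this
    linarith
  · exact key x y hx hy

private theorem WRI_FL (a b t : ℝ) (n : ℤ) (hn : 1 ≤ n) (ha : 0 < a) (hb : 0 < b) (v w : ℝ)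
    (hv : v ^ 2 ≤ (b * n) ^ 2 / 2) (hw : w ^ 2 ≤ (b * n) ^ 2 / 2) :
    ‖nit t (a * n ^ 2 - a / b ^ 2 * v ^ 2) - nit t (a * n ^ 2 - a / b ^ 2 * w ^ 2)‖ ≤ 4 * |t| / (b * n) * |v - w| := by
  have hn' : (0 : ℝ) < n := by exact_mod_cast (by omega : (0 : ℤ) < n)
  have hbn : 0 < b * n := by positivity
  have g : ∀ v : ℝ, v ^ 2 ≤ (b * n) ^ 2 / 2 → a * n ^ 2 / 2 ≤ a * n ^ 2 - a / b ^ 2 * v ^ 2 := by
    intro v hv
    have : a / b ^ 2 * v ^ 2 ≤ a / b ^ 2 * ((b * n) ^ 2 / 2) := mul_le_mul_of_nonneg_left hv (by positivity)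
    have e : a / b ^ 2 * ((b * n) ^ 2 / 2) = a * n ^ 2 / 2 := by field_simp
    rw [e] at this
    linarith
  have ab : ∀ v : ℝ, v ^ 2 ≤ (b * n) ^ 2 / 2 → |v| ≤ b * n := by
    intro v hv
    apply abs_le_of_sq_le_sq _ hbn.le
    nlinarith [sq_nonneg (b * n)]
  refine (WRI_nitL t _ _).trans ?_
  have h1 := WRI_logL _ _ (a * n ^ 2 / 2) (by positivity) (g v hv) (g w hw)
  have h2 : |a * n ^ 2 - a / b ^ 2 * v ^ 2 - (a * n ^ 2 - a / b ^ 2 * w ^ 2)| ≤ a / b ^ 2 * (2 * (b * n)) * |v - w| := by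
    have e : a * n ^ 2 - a / b ^ 2 * v ^ 2 - (a * n ^ 2 - a / b ^ 2 * w ^ 2) = a / b ^ 2 * (w + v) * (w - v) := by ring
    rw [e, abs_mul, abs_mul, abs_of_pos (by positivity : 0 < a / b ^ 2), abs_sub_comm w v]
    apply mul_le_mul_of_nonneg_right _ (abs_nonneg _)
    apply mul_le_mul_of_nonneg_left _ (by positivity)
    refine (abs_add_le _ _).trans ?_
    linarith [ab v hv, ab w hw]
  have h3 : |a * n ^ 2 - a / b ^ 2 * v ^ 2 - (a * n ^ 2 - a / b ^ 2 * w ^ 2)| / (a * n ^ 2 / 2)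
      ≤ 4 / (b * n) * |v - w| := by
    rw [div_le_iff₀ (by positivity)]
    refine h2.trans (le_of_eq ?_)
    field_simp
    ring
  calc _ ≤ |t| * (4 / (b * n) * |v - w|) := mul_le_mul_of_nonneg_left (h1.trans h3) (abs_nonneg _)
    _ = 4 * |t| / (b * n) * |v - w| := by ring

/-! ### one condition -/

private theorem WRI_ml (q : ℕ) (c' : ℤ) (a b y h t R : ℝ) (n : ℤ) (hq : 1 ≤ q) (hn : 1 ≤ n) (ha : 0 < a) (hb : 0 < b)
    (hy : -lep ≤ y) (hh : 0 ≤ h) (hyl : y + h ≤ lep) (S : Finset ℤ)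
    (hS : ∀ m : ℤ, m ∈ S ↔ (b * n * Real.tanh (y / 2) < m ∧ (m : ℝ) ≤ b * n * Real.tanh ((y + h) / 2) ∧
      R < a * n ^ 2 - a / b ^ 2 * (m : ℝ) ^ 2 ∧ (q : ℤ) ∣ m - c')) :
    ‖∑ m ∈ S, nit t (a * n ^ 2 - a / b ^ 2 * (m : ℝ) ^ 2) - 1 / (q : ℂ) * ∫ u in y..(y + h),
      (if R < a * n ^ 2 / Real.cosh (u / 2) ^ 2 then
        nit t (a * n ^ 2 / Real.cosh (u / 2) ^ 2) * ((b * n / (2 * Real.cosh (u / 2) ^ 2) : ℝ) : ℂ) else 0)‖
      ≤ 3 + 2 * (|t| * h) := by
  have hn' : (0 : ℝ) < n := by exact_mod_cast (by omega : (0 : ℤ) < n)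
  have hbn : 0 < b * n := by positivity
  set φ : ℝ → ℝ := fun u => b * n * Real.tanh (u / 2) with hφ
  set φ' : ℝ → ℝ := fun u => b * n / (2 * Real.cosh (u / 2) ^ 2) with hφ'
  have hd : ∀ u, HasDerivAt φ (φ' u) u := by
    intro u
    have h1 : HasDerivAt (fun u : ℝ => u / 2) (1 / 2) u := (hasDerivAt_id u).div_const 2
    have h2 := ((WRI_deriv (u / 2)).comp u h1).const_mul (b * n)
    have e : b * n * (1 / Real.cosh (u / 2) ^ 2 * (1 / 2)) = φ' u := by
      rw [hφ']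
      have := (Real.cosh_pos (u / 2)).ne'
      field_simp
    rw [e] at h2
    exact h2
  have hcosh : Continuous fun u : ℝ => Real.cosh (u / 2) ^ 2 := by fun_prop
  have hcp : ∀ u : ℝ, 0 < Real.cosh (u / 2) ^ 2 := fun u => by have := Real.cosh_pos (u / 2); positivity
  have hc1 : ∀ u : ℝ, 1 ≤ Real.cosh (u / 2) ^ 2 := fun u => by
    have := Real.one_le_cosh (u / 2)
    nlinarith
  have hφ'c : Continuous φ' := by
    apply Continuous.div continuous_const (by fun_prop)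
    intro u; have := hcp u; positivity
  have hφ'0 : ∀ u, 0 < φ' u := fun u => by have := hcp u; simp only [hφ']; positivity
  have hmono : StrictMono φ := by
    apply strictMono_of_deriv_pos
    intro u
    rw [(hd u).deriv]; exact hφ'0 u
  have hcont : Continuous φ := continuous_iff_continuousAt.mpr fun u => (hd u).continuousAt
  have hlen : φ (y + h) - φ y ≤ b * n * h / 2 := by
    have hm : Monotone fun u => b * n / 2 * u - φ u := by
      apply monotone_of_deriv_nonneg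
      · intro u
        exact (((hasDerivAt_id u).const_mul (b * n / 2)).sub (hd u)).differentiableAt
      · intro u
        have h1 := (((hasDerivAt_id u).const_mul (b * n / 2)).sub (hd u)).deriv
        have e : deriv (fun u => b * n / 2 * u - φ u) u = b * n / 2 * 1 - φ' u := h1
        rw [e]
        have : φ' u ≤ b * n / 2 := by
          simp only [hφ']
          apply div_le_div_of_nonneg_left hbn.le (by norm_num)
          linarith [hc1 u]
        linarith
    have := hm (show y ≤ y + h by linarith)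
    simp only at this
    linarith
  have hAB : φ y ≤ φ (y + h) := hmono.monotone (by linarith)
  set r := √((b * n) ^ 2 - b ^ 2 / a * R) with hr
  have hr0 : 0 ≤ r := Real.sqrt_nonneg _
  have hR : ∀ v : ℝ, R < a * n ^ 2 - a / b ^ 2 * v ^ 2 ↔ -r < v ∧ v < r := by
    intro v
    rw [← abs_lt, hr, Real.lt_sqrt (abs_nonneg v), sq_abs]
    have e : (b * n) ^ 2 - b ^ 2 / a * R - v ^ 2 = b ^ 2 / a * (a * n ^ 2 - a / b ^ 2 * v ^ 2 - R) := by
      field_simp
      ring
    have hp : 0 < b ^ 2 / a := by positivity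
    constructor
    · intro h1
      have : 0 < b ^ 2 / a * (a * n ^ 2 - a / b ^ 2 * v ^ 2 - R) := mul_pos hp (by linarith)
      linarith
    · intro h1
      have : 0 < b ^ 2 / a * (a * n ^ 2 - a / b ^ 2 * v ^ 2 - R) := by rw [← e]; linarith
      have := (mul_pos_iff_of_pos_left hp).mp this
      linarith
  have hNu : ∀ u : ℝ, a * n ^ 2 / Real.cosh (u / 2) ^ 2 = a * n ^ 2 - a / b ^ 2 * (φ u) ^ 2 := by
    intro u
    have e : a * n ^ 2 / Real.cosh (u / 2) ^ 2 = a * n ^ 2 * (1 / Real.cosh (u / 2) ^ 2) := by ring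
    rw [e, WRI_cosh]
    simp only [hφ]
    field_simp
  have ivt : ∀ v : ℝ, φ y ≤ v → v ≤ φ (y + h) → ∃ u ∈ Set.Icc y (y + h), φ u = v := by
    intro v h1 h2
    exact intermediate_value_Icc (by linarith) hcont.continuousOn ⟨h1, h2⟩
  obtain ⟨u₁, hu₁, e₁⟩ := ivt (max (φ y) (min (-r) (φ (y + h)))) (le_max_left _ _) (max_le hAB (min_le_right _ _))
  obtain ⟨u₂, hu₂, e₂⟩ := ivt (max (φ y) (min r (φ (y + h)))) (le_max_left _ _) (max_le hAB (min_le_right _ _))
  have hφ12 : φ u₁ ≤ φ u₂ := by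
    rw [e₁, e₂]
    exact max_le_max le_rfl (min_le_min (by linarith) le_rfl)
  have h12 : u₁ ≤ u₂ := hmono.le_iff_le.mp hφ12
  have hyu : ∀ v, φ y ≤ v → v ≤ φ (y + h) → v ^ 2 ≤ (b * n) ^ 2 / 2 := by
    intro v h1 h2
    obtain ⟨u, hu, rfl⟩ := ivt v h1 h2
    have := WRI_t2 u (by linarith [hu.1]) (by linarith [hu.2])
    simp only [hφ]
    rw [mul_pow]
    calc (b * n) ^ 2 * Real.tanh (u / 2) ^ 2 ≤ (b * n) ^ 2 * (1 / 2) := mul_le_mul_of_nonneg_left this (by positivity)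
      _ = (b * n) ^ 2 / 2 := by ring
  have hu₁' : φ y ≤ φ u₁ := hmono.monotone hu₁.1
  have hu₂' : φ u₂ ≤ φ (y + h) := hmono.monotone hu₂.2
  set F : ℝ → ℂ := fun v => nit t (a * n ^ 2 - a / b ^ 2 * v ^ 2) with hF
  have hFL : ∀ v w, φ y ≤ v → v ≤ φ (y + h) → φ y ≤ w → w ≤ φ (y + h) → ‖F v - F w‖ ≤ 4 * |t| / (b * n) * |v - w| := by
    intro v w h1 h2 h3 h4
    exact WRI_FL a b t n hn ha hb v w (hyu v h1 h2) (hyu w h3 h4)
  have hFc : ContinuousOn F (Set.Icc (φ y) (φ (y + h))) := by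
    have : LipschitzOnWith (4 * |t| / (b * n)).toNNReal F (Set.Icc (φ y) (φ (y + h))) := by
      apply LipschitzOnWith.of_dist_le_mul
      intro v hv w hw
      rw [dist_eq_norm, Real.dist_eq, Real.coe_toNNReal _ (by positivity)]
      exact hFL v w hv.1 hv.2 hw.1 hw.2
    exact this.continuousOn
  -- the integral
  have hint : ∫ u in y..(y + h), (if R < a * n ^ 2 / Real.cosh (u / 2) ^ 2 then
        nit t (a * n ^ 2 / Real.cosh (u / 2) ^ 2) * ((b * n / (2 * Real.cosh (u / 2) ^ 2) : ℝ) : ℂ) else 0)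
      = ∫ v in (φ u₁)..(φ u₂), F v := by
    rw [intervalIntegral.integral_of_le (by linarith), MeasureTheory.integral_Ioc_eq_integral_Ioo]
    have e1 : (fun u : ℝ => if R < a * n ^ 2 / Real.cosh (u / 2) ^ 2 then
        nit t (a * n ^ 2 / Real.cosh (u / 2) ^ 2) * ((b * n / (2 * Real.cosh (u / 2) ^ 2) : ℝ) : ℂ) else 0)
        = Set.indicator {u : ℝ | R < a * n ^ 2 / Real.cosh (u / 2) ^ 2} (fun u => φ' u • F (φ u)) := by
      funext u
      rw [Set.indicator_apply]
      by_cases hP : R < a * n ^ 2 / Real.cosh (u / 2) ^ 2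
      · rw [if_pos hP, if_pos (by exact hP), Complex.real_smul, mul_comm, hF]
        simp only
        rw [← hNu u]
      · rw [if_neg hP, if_neg (by exact hP)]
    have hmeas : MeasurableSet {u : ℝ | R < a * n ^ 2 / Real.cosh (u / 2) ^ 2} := by
      apply IsOpen.measurableSet
      apply isOpen_lt continuous_const
      apply Continuous.div continuous_const hcosh
      intro u; exact (hcp u).ne'
    rw [e1, MeasureTheory.setIntegral_indicator hmeas]
    have e2 : Set.Ioo y (y + h) ∩ {u : ℝ | R < a * n ^ 2 / Real.cosh (u / 2) ^ 2} = Set.Ioo u₁ u₂ := by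
      ext u
      simp only [Set.mem_inter_iff, Set.mem_Ioo, Set.mem_ofPred_eq]
      rw [hNu u, hR (φ u), ← hmono.lt_iff_lt (a := u₁), ← hmono.lt_iff_lt (b := u₂), e₁, e₂,
        ← hmono.lt_iff_lt (a := y), ← hmono.lt_iff_lt (b := y + h), max_lt_iff, min_lt_iff, lt_max_iff, lt_min_iff]
      constructor
      · rintro ⟨⟨h1, h2⟩, h3, h4⟩
        exact ⟨⟨h1, Or.inl h3⟩, Or.inr ⟨h4, h2⟩⟩
      · rintro ⟨⟨h1, h2⟩, h3⟩
        rcases h3 with h3 | ⟨h3, h4⟩
        · exact absurd h3 (not_lt.mpr h1.le)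
        · rcases h2 with h2 | h2
          · exact ⟨⟨h1, h4⟩, h2, h3⟩
          · exact absurd h2 (not_lt.mpr h4.le)
    rw [e2, ← MeasureTheory.integral_Ioc_eq_integral_Ioo, ← intervalIntegral.integral_of_le h12]
    have := intervalIntegral.integral_deriv_smul_comp'' (f := φ) (f' := φ') (g := F) (a := u₁) (b := u₂) hcont.continuousOn
      (fun x _ => (hd x).hasDerivWithinAt) hφ'c.continuousOn
      (hFc.mono (by
        rintro _ ⟨u, hu, rfl⟩
        rw [Set.uIcc_of_le h12] at hu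
        exact ⟨hmono.monotone (hu₁.1.trans hu.1), hmono.monotone (hu.2.trans hu₂.2)⟩))
    exact this
  rw [hint]
  have hgl := WRI_gl F (φ u₁) (φ u₂) (4 * |t| / (b * n)) q c' S hq (by positivity) hφ12
    (fun v _ _ => (WRI_nit1 _ _).le)
    (fun v w h1 h2 h3 h4 => hFL v w (hu₁'.trans h1) (h2.trans hu₂') (hu₁'.trans h3) (h4.trans hu₂'))
    (by
      intro m hm
      obtain ⟨h1, h2, h3, h4⟩ := (hS m).mp hm
      rw [hR] at h3
      refine ⟨?_, ?_, h4⟩
      · rw [e₁]; exact max_le h1.le ((min_le_left _ _).trans h3.1.le)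
      · rw [e₂]; exact (le_min h3.2.le h2).trans (le_max_right _ _))
    (by
      intro m h1 h2 h3
      rw [hS m, hR]
      rw [e₁, max_lt_iff, min_lt_iff] at h1
      rw [e₂, lt_max_iff, lt_min_iff] at h2
      rcases h2 with h2 | ⟨h2, h4⟩
      · exact absurd h2 (not_lt.mpr h1.1.le)
      · rcases h1 with ⟨h1, h5 | h5⟩
        · exact ⟨h1, h4.le, ⟨h5, h2⟩, h3⟩
        · exact absurd h5 (not_lt.mpr h4.le))
  refine hgl.trans ?_
  have h5 : φ u₂ - φ u₁ ≤ b * n * h / 2 := by linarith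
  have h6 : 4 * |t| / (b * n) * (φ u₂ - φ u₁) ≤ 4 * |t| / (b * n) * (b * n * h / 2) :=
    mul_le_mul_of_nonneg_left h5 (by positivity)
  have h7 : 4 * |t| / (b * n) * (b * n * h / 2) = 2 * (|t| * h) := by field_simp; ring
  linarith

private theorem WRI_ii (a b R t y z : ℝ) (n : ℤ) (hn : 1 ≤ n) (ha : 0 < a) :
    IntervalIntegrable (fun u : ℝ => if R < a * n ^ 2 / Real.cosh (u / 2) ^ 2 then
        nit t (a * n ^ 2 / Real.cosh (u / 2) ^ 2) * ((b * n / (2 * Real.cosh (u / 2) ^ 2) : ℝ) : ℂ) else 0)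
      MeasureTheory.volume y z := by
  have hn' : (0 : ℝ) < n := by exact_mod_cast (by omega : (0 : ℤ) < n)
  have hcp : ∀ u : ℝ, 0 < Real.cosh (u / 2) ^ 2 := fun u => by have := Real.cosh_pos (u / 2); positivity
  have hN : Continuous fun u : ℝ => a * n ^ 2 / Real.cosh (u / 2) ^ 2 := by
    apply Continuous.div continuous_const (by fun_prop)
    intro u; exact (hcp u).ne'
  have hW : Continuous fun u : ℝ => b * n / (2 * Real.cosh (u / 2) ^ 2) := by
    apply Continuous.div continuous_const (by fun_prop)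
    intro u; have := hcp u; positivity
  have hL : Continuous fun u : ℝ => Real.log (a * n ^ 2 / Real.cosh (u / 2) ^ 2) := by
    apply hN.log
    intro u; have := hcp u; positivity
  have hH : Continuous fun u : ℝ =>
      nit t (a * n ^ 2 / Real.cosh (u / 2) ^ 2) * ((b * n / (2 * Real.cosh (u / 2) ^ 2) : ℝ) : ℂ) := by
    apply Continuous.mul
    · unfold nit
      apply Complex.continuous_exp.comp
      apply Continuous.mul _ continuous_const
      exact Complex.continuous_ofReal.comp (continuous_const.mul hL)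
    · exact Complex.continuous_ofReal.comp hW
  have hmeas : MeasurableSet {u : ℝ | R < a * n ^ 2 / Real.cosh (u / 2) ^ 2} :=
    (isOpen_lt continuous_const hN).measurableSet
  have hi := hH.intervalIntegrable (μ := MeasureTheory.volume) y z
  have e1 : (fun u : ℝ => if R < a * n ^ 2 / Real.cosh (u / 2) ^ 2 then
        nit t (a * n ^ 2 / Real.cosh (u / 2) ^ 2) * ((b * n / (2 * Real.cosh (u / 2) ^ 2) : ℝ) : ℂ) else 0)
        = Set.indicator {u : ℝ | R < a * n ^ 2 / Real.cosh (u / 2) ^ 2}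
          (fun u => nit t (a * n ^ 2 / Real.cosh (u / 2) ^ 2) * ((b * n / (2 * Real.cosh (u / 2) ^ 2) : ℝ) : ℂ)) := by
    funext u
    rw [Set.indicator_apply]
    by_cases hP : R < a * n ^ 2 / Real.cosh (u / 2) ^ 2
    · rw [if_pos hP, if_pos (by exact hP)]
    · rw [if_neg hP, if_neg (by exact hP)]
  rw [e1]
  exact ⟨hi.1.indicator hmeas, hi.2.indicator hmeas⟩

/-- the coefficients -/
private theorem WRI_ab (sg : ℤ) (hsg : sg = 1 ∨ sg = -1) :
    0 < ra sg ∧ 0 < rb sg ∧ rb sg ^ 2 ≤ 8 := by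
  have h8 := WRI_s8
  have h0 : (0 : ℝ) < √8 := Real.sqrt_pos.mpr (by norm_num)
  rcases hsg with rfl | rfl
  · unfold ra rb
    rw [if_pos rfl, if_pos rfl]
    refine ⟨one_pos, by positivity, ?_⟩
    rw [div_pow, sq (√8), h8]; norm_num
  · unfold ra rb
    rw [if_neg (by norm_num), if_neg (by norm_num)]
    refine ⟨by norm_num, h0, ?_⟩
    rw [sq, h8]

/-- the norm in a row -/
private theorem WRI_nn (sg : ℤ) (hsg : sg = 1 ∨ sg = -1) (n m : ℤ) (hm : (m : ℝ) ^ 2 ≤ (rb sg * n) ^ 2 / 2) :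
    ((nn (pz sg n m) : ℕ) : ℝ) = ra sg * n ^ 2 - ra sg / rb sg ^ 2 * (m : ℝ) ^ 2 := by
  have h8 := WRI_s8
  have h0 : (0 : ℝ) < √8 := Real.sqrt_pos.mpr (by norm_num)
  rcases hsg with rfl | rfl
  · have eb : rb 1 ^ 2 = 1 / 8 := by
      unfold rb
      rw [if_pos rfl, div_pow, sq (√8), h8]; norm_num
    rw [mul_pow, eb] at hm
    rw [eb]
    have h1 : (0 : ℝ) ≤ (n : ℝ) ^ 2 - 8 * (m : ℝ) ^ 2 := by nlinarith [sq_nonneg (n : ℝ)]
    have h2 : (0 : ℤ) ≤ n ^ 2 - 8 * m ^ 2 := by exact_mod_cast h1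
    have h3 : ((nn (pz 1 n m) : ℕ) : ℤ) = n ^ 2 - 8 * m ^ 2 := by
      unfold nn N8 pz
      rw [if_pos rfl]
      exact Int.natAbs_of_nonneg h2
    have h4 : ((nn (pz 1 n m) : ℕ) : ℝ) = (n : ℝ) ^ 2 - 8 * (m : ℝ) ^ 2 := by exact_mod_cast h3
    rw [h4]
    unfold ra
    rw [if_pos rfl]
    ring
  · have eb : rb (-1) ^ 2 = 8 := by
      unfold rb
      rw [if_neg (by norm_num), sq, h8]
    rw [mul_pow, eb] at hm
    rw [eb]
    have h1 : (0 : ℝ) ≤ 8 * (n : ℝ) ^ 2 - (m : ℝ) ^ 2 := by nlinarith [sq_nonneg (n : ℝ)]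
    have h2 : (0 : ℤ) ≤ -(m ^ 2 - 8 * n ^ 2) := by
      have : (0 : ℤ) ≤ 8 * n ^ 2 - m ^ 2 := by exact_mod_cast h1
      linarith
    have h3 : ((nn (pz (-1) n m) : ℕ) : ℤ) = -(m ^ 2 - 8 * n ^ 2) := by
      unfold nn N8 pz
      rw [if_neg (by norm_num)]
      simp only
      rw [← Int.natAbs_neg]
      exact Int.natAbs_of_nonneg h2
    have h4 : ((nn (pz (-1) n m) : ℕ) : ℝ) = -((m : ℝ) ^ 2 - 8 * (n : ℝ) ^ 2) := by exact_mod_cast h3
    rw [h4]
    unfold ra
    rw [if_neg (by norm_num)]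
    ring

theorem WRI (hWRZ : WRZ_stmt) : WRI_stmt := by
  classical
  refine ⟨6, by norm_num, ?_⟩
  intro M M' q c sg y h t n hsg hq hn hy hh hyl hM hMM hdiv
  obtain ⟨ha, hb, hb8⟩ := WRI_ab sg hsg
  have hn' : (0 : ℝ) < n := by exact_mod_cast (by omega : (0 : ℤ) < n)
  have hbn : 0 < rb sg * n := by positivity
  set ci : ℤ := if sg = 1 then c.2 else c.1 with hci
  -- the interval
  have hI : ∀ m : ℤ, rb sg * n * Real.tanh (y / 2) < m → (m : ℝ) ≤ rb sg * n * Real.tanh ((y + h) / 2) →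
      (m : ℝ) ^ 2 ≤ (rb sg * n) ^ 2 / 2 := by
    intro m h1 h2
    have t1 := WRI_t2 y hy (by linarith)
    have t2 := WRI_t2 (y + h) (by linarith) hyl
    have s1 : (rb sg * n * Real.tanh (y / 2)) ^ 2 ≤ (rb sg * n) ^ 2 / 2 := by
      rw [mul_pow]
      calc (rb sg * n) ^ 2 * Real.tanh (y / 2) ^ 2 ≤ (rb sg * n) ^ 2 * (1 / 2) :=
            mul_le_mul_of_nonneg_left t1 (by positivity)
        _ = (rb sg * n) ^ 2 / 2 := by ring
    have s2 : (rb sg * n * Real.tanh ((y + h) / 2)) ^ 2 ≤ (rb sg * n) ^ 2 / 2 := by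
      rw [mul_pow]
      calc (rb sg * n) ^ 2 * Real.tanh ((y + h) / 2) ^ 2 ≤ (rb sg * n) ^ 2 * (1 / 2) :=
            mul_le_mul_of_nonneg_left t2 (by positivity)
        _ = (rb sg * n) ^ 2 / 2 := by ring
    rcases le_total 0 (m : ℝ) with hm | hm
    · exact (pow_le_pow_left₀ hm h2 2).trans s2
    · have : (-(m : ℝ)) ^ 2 ≤ (-(rb sg * n * Real.tanh (y / 2))) ^ 2 :=
        pow_le_pow_left₀ (by linarith) (by linarith) 2
      rw [neg_sq, neg_sq] at this
      exact this.trans s1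
  have hI2 : ∀ m : ℤ, (m : ℝ) ^ 2 ≤ (rb sg * n) ^ 2 / 2 → m ∈ Icc (-(2 * n)) (2 * n) := by
    intro m hm
    have h1 : (m : ℝ) ^ 2 ≤ (2 * n) ^ 2 := by
      refine hm.trans ?_
      rw [mul_pow]
      have := mul_le_mul_of_nonneg_right hb8 (sq_nonneg (n : ℝ))
      nlinarith
    have h2 : |(m : ℝ)| ≤ 2 * n := abs_le_of_sq_le_sq h1 (by positivity)
    have h3 := abs_le.mp h2
    rw [mem_Icc]
    constructor
    · have : ((-(2 * n) : ℤ) : ℝ) ≤ m := by push_cast; linarith [h3.1]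
      exact_mod_cast this
    · have : (m : ℝ) ≤ ((2 * n : ℤ) : ℝ) := by push_cast; linarith [h3.2]
      exact_mod_cast this
  set S : ℝ → Finset ℤ := fun R => {m ∈ Icc (-(2 * n)) (2 * n) | rb sg * n * Real.tanh (y / 2) < m ∧
      (m : ℝ) ≤ rb sg * n * Real.tanh ((y + h) / 2) ∧ R < ra sg * n ^ 2 - ra sg / rb sg ^ 2 * (m : ℝ) ^ 2 ∧
      (q : ℤ) ∣ m - ci} with hS
  have hSm : ∀ R : ℝ, ∀ m : ℤ, m ∈ S R ↔ (rb sg * n * Real.tanh (y / 2) < m ∧
      (m : ℝ) ≤ rb sg * n * Real.tanh ((y + h) / 2) ∧ R < ra sg * n ^ 2 - ra sg / rb sg ^ 2 * (m : ℝ) ^ 2 ∧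
      (q : ℤ) ∣ m - ci) := by
    intro R m
    simp only [hS, mem_filter]
    constructor
    · exact fun hm => hm.2
    · exact fun hm => ⟨hI2 m (hI m hm.1 hm.2.1), hm⟩
  have hMM' : (M : ℝ) ≤ M' := by exact_mod_cast hMM
  have hsub : S M' ⊆ S M := by
    intro m hm
    rw [hSm] at hm ⊢
    exact ⟨hm.1, hm.2.1, by linarith [hm.2.2.1], hm.2.2.2⟩
  have hdv : ∀ m : ℤ, ((q : ℤ) ∣ (pz sg n m).1 - c.1 ∧ (q : ℤ) ∣ (pz sg n m).2 - c.2) ↔ (q : ℤ) ∣ m - ci := by
    intro m
    rcases hsg with rfl | rfl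
    · have e1 : pz 1 n m = (n, m) := by unfold pz; rw [if_pos rfl]
      have e2 : ci = c.2 := by rw [hci, if_pos rfl]
      have e3 : co 1 c = c.1 := by unfold co; rw [if_pos rfl]
      rw [e3] at hdiv
      rw [e1, e2]
      exact ⟨fun h => h.2, fun h => ⟨hdiv, h⟩⟩
    · have e1 : pz (-1) n m = (m, n) := by unfold pz; rw [if_neg (by norm_num)]
      have e2 : ci = c.1 := by rw [hci, if_neg (by norm_num)]
      have e3 : co (-1) c = c.2 := by unfold co; rw [if_neg (by norm_num)]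
      rw [e3] at hdiv
      rw [e1, e2]
      exact ⟨fun h => h.1, fun h => ⟨h, hdiv⟩⟩
  have hRow : RowS M M' q c sg y h n = S M \ S M' := by
    ext m
    rw [mem_sdiff, hSm, hSm]
    unfold RowS
    rw [mem_filter]
    constructor
    · rintro ⟨_, h1, h2, h3, h4, h5, h6⟩
      have hm := WRI_nn sg hsg n m (hI m h1 h2)
      have h3' : (M : ℝ) < (nn (pz sg n m) : ℝ) := by exact_mod_cast h3
      have h4' : (nn (pz sg n m) : ℝ) ≤ M' := by exact_mod_cast h4
      rw [hm] at h3' h4'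
      refine ⟨⟨h1, h2, h3', (hdv m).mp ⟨h5, h6⟩⟩, ?_⟩
      rintro ⟨_, _, h7, _⟩
      linarith
    · rintro ⟨⟨h1, h2, h3, h4⟩, h5⟩
      have hm := WRI_nn sg hsg n m (hI m h1 h2)
      have h6 : ra sg * n ^ 2 - ra sg / rb sg ^ 2 * (m : ℝ) ^ 2 ≤ M' := by
        by_contra hcon
        push Not at hcon
        exact h5 ⟨h1, h2, hcon, h4⟩
      rw [← hm] at h3 h6
      have h7 := (hdv m).mpr h4
      exact ⟨hI2 m (hI m h1 h2), h1, h2, by exact_mod_cast h3, by exact_mod_cast h6, h7.1, h7.2⟩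
  have hsum : ∑ m ∈ RowS M M' q c sg y h n, nit t (nn (pz sg n m))
      = ∑ m ∈ S M, nit t (ra sg * n ^ 2 - ra sg / rb sg ^ 2 * (m : ℝ) ^ 2)
        - ∑ m ∈ S M', nit t (ra sg * n ^ 2 - ra sg / rb sg ^ 2 * (m : ℝ) ^ 2) := by
    have e1 : ∑ m ∈ RowS M M' q c sg y h n, nit t (nn (pz sg n m))
        = ∑ m ∈ S M \ S M', nit t (ra sg * n ^ 2 - ra sg / rb sg ^ 2 * (m : ℝ) ^ 2) := by
      rw [hRow]
      apply sum_congr rfl
      intro m hm
      rw [mem_sdiff, hSm] at hm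
      rw [WRI_nn sg hsg n m (hI m hm.1.1 hm.1.2.1)]
    rw [e1, ← sum_sdiff hsub]
    ring
  have hg : ∀ u : ℝ, gI sg M M' t n u =
      (if (M : ℝ) < ra sg * n ^ 2 / Real.cosh (u / 2) ^ 2 then
        nit t (ra sg * n ^ 2 / Real.cosh (u / 2) ^ 2) * ((rb sg * n / (2 * Real.cosh (u / 2) ^ 2) : ℝ) : ℂ) else 0) -
      (if (M' : ℝ) < ra sg * n ^ 2 / Real.cosh (u / 2) ^ 2 then
        nit t (ra sg * n ^ 2 / Real.cosh (u / 2) ^ 2) * ((rb sg * n / (2 * Real.cosh (u / 2) ^ 2) : ℝ) : ℂ) else 0) := by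
    intro u
    unfold gI
    by_cases h1 : (M : ℝ) < ra sg * n ^ 2 / Real.cosh (u / 2) ^ 2
    · by_cases h2 : (M' : ℝ) < ra sg * n ^ 2 / Real.cosh (u / 2) ^ 2
      · rw [if_neg (fun hc => absurd hc.2 (not_le.mpr h2)), if_pos h1, if_pos h2, sub_self]
      · rw [if_pos ⟨h1, not_lt.mp h2⟩, if_pos h1, if_neg h2, sub_zero]
    · have h2 : ¬ (M' : ℝ) < ra sg * n ^ 2 / Real.cosh (u / 2) ^ 2 := fun hc => h1 (by linarith)
      rw [if_neg (fun hc => h1 hc.1), if_neg h1, if_neg h2, sub_zero]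
  have hint : ∫ u in y..(y + h), gI sg M M' t n u =
      (∫ u in y..(y + h), (if (M : ℝ) < ra sg * n ^ 2 / Real.cosh (u / 2) ^ 2 then
        nit t (ra sg * n ^ 2 / Real.cosh (u / 2) ^ 2) * ((rb sg * n / (2 * Real.cosh (u / 2) ^ 2) : ℝ) : ℂ) else 0)) -
      ∫ u in y..(y + h), (if (M' : ℝ) < ra sg * n ^ 2 / Real.cosh (u / 2) ^ 2 then
        nit t (ra sg * n ^ 2 / Real.cosh (u / 2) ^ 2) * ((rb sg * n / (2 * Real.cosh (u / 2) ^ 2) : ℝ) : ℂ) else 0) := by
    rw [← intervalIntegral.integral_sub (WRI_ii _ _ _ _ _ _ n hn ha) (WRI_ii _ _ _ _ _ _ n hn ha)]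
    apply intervalIntegral.integral_congr
    intro u _
    exact hg u
  have m1 := WRI_ml q ci (ra sg) (rb sg) y h t M n hq hn ha hb hy hh hyl (S M) (hSm M)
  have m2 := WRI_ml q ci (ra sg) (rb sg) y h t M' n hq hn ha hb hy hh hyl (S M') (hSm M')
  rw [hsum, hint]
  set X1 := ∑ m ∈ S M, nit t (ra sg * n ^ 2 - ra sg / rb sg ^ 2 * (m : ℝ) ^ 2)
  set X2 := ∑ m ∈ S M', nit t (ra sg * n ^ 2 - ra sg / rb sg ^ 2 * (m : ℝ) ^ 2)
  set Y1 := ∫ u in y..(y + h), (if (M : ℝ) < ra sg * n ^ 2 / Real.cosh (u / 2) ^ 2 then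
        nit t (ra sg * n ^ 2 / Real.cosh (u / 2) ^ 2) * ((rb sg * n / (2 * Real.cosh (u / 2) ^ 2) : ℝ) : ℂ) else 0)
  set Y2 := ∫ u in y..(y + h), (if (M' : ℝ) < ra sg * n ^ 2 / Real.cosh (u / 2) ^ 2 then
        nit t (ra sg * n ^ 2 / Real.cosh (u / 2) ^ 2) * ((rb sg * n / (2 * Real.cosh (u / 2) ^ 2) : ℝ) : ℂ) else 0)
  have e : X1 - X2 - 1 / (q : ℂ) * (Y1 - Y2) = (X1 - 1 / (q : ℂ) * Y1) - (X2 - 1 / (q : ℂ) * Y2) := by ring
  rw [e]
  refine (norm_sub_le _ _).trans ?_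
  have h9 : 0 ≤ |t| * h := mul_nonneg (abs_nonneg _) hh
  linarith

end Pool.Agent.EU
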